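import Pool.Agent.Work.MP_49847a_an.Pol

/-!
# Module PolH: polarised form of a Hermitian sum of squares modulo `‖P‖² - 1`

Proof.  Let `ρ`, `σ` be real polynomials with values `nrm P`, `nrm p` (`exists_nrm`).  `h` and `ev_ext`
give `R = σ + (ρ - 1) H`, so `pol R = pol σ + (pol ρ - 1) pol H` (`pol_add`, `pol_mul`, `pol_C`), and
`pol_sum` computes `pol σ`, `pol ρ` (`‖a‖² = a conj a`).  (pol_sq): special case of `pol_sum` with
`m = 1`.
-/

namespace Pool.Agent.Work.MP_49847a_an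

open MvPolynomial

variable {n k : ℕ} {P : Fin k → MvPolynomial (Fin n) ℂ}

theorem pol_nrm {m : ℕ} {p : Fin m → MvPolynomial (Fin n) ℂ} {F : MvPolynomial (Fin n ⊕ Fin n) ℝ}
    (h : ∀ z, ev F z = nrm p z) (z w : Fin n → ℂ) :
    pol F z w = ∑ j, eval z (p j) * (starRingEnd ℂ) (eval w (p j)) := by
  refine pol_sum F p p (fun u => ?_) z w
  rw [h u]
  unfold nrm
  push_cast
  refine Finset.sum_congr rfl fun j _ => ?_
  rw [Complex.mul_conj, Complex.normSq_eq_norm_sq]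
  push_cast
  rfl

theorem pol_HS {m : ℕ} {p : Fin m → MvPolynomial (Fin n) ℂ}
    {R H : MvPolynomial (Fin n ⊕ Fin n) ℝ} (h : ∀ z, ev R z = nrm p z + (nrm P z - 1) * ev H z)
    (z w : Fin n → ℂ) :
    pol R z w = ∑ j, eval z (p j) * (starRingEnd ℂ) (eval w (p j)) +
      (∑ j, eval z (P j) * (starRingEnd ℂ) (eval w (P j)) - 1) * pol H z w := by
  obtain ⟨ρ, hρ⟩ := exists_nrm P
  obtain ⟨σ, hσ⟩ := exists_nrm p
  have hR : R = σ + (ρ - C 1) * H := by
    apply ev_ext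
    intro u
    rw [ev_add, ev_mul, ev_sub, hρ, hσ, ev_C, h u]
  rw [hR, pol_add, pol_mul, pol_sub, pol_C, pol_nrm hρ, pol_nrm hσ]
  simp

theorem pol_sq {F : MvPolynomial (Fin n ⊕ Fin n) ℝ} {l : MvPolynomial (Fin n) ℂ}
    (h : ∀ z, ev F z = ‖eval z l‖ ^ 2) (z w : Fin n → ℂ) :
    pol F z w = eval z l * (starRingEnd ℂ) (eval w l) := by
  have := pol_nrm (p := fun _ : Fin 1 => l) (F := F) (fun u => by rw [h u, nrm_one]) z w
  simpa using this

end Pool.Agent.Work.MP_49847a_an
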