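import Pool.Agent.Work.MP_49847a_an.Ev

/-!
# Module Dec: every real polynomial is a difference of Hermitian sums of squares

Proof.  The set of the `F` with such a decomposition contains the constants (`nrm_const`), is closed
under sums and products (`nrm_append`, `nrm_mul`:
`(a - b)(c - d) = (ac + bd) - (ad + bc)`), and contains `Re z_i = ¼ |z_i + 1|² - ¼ |z_i - 1|²` and
`Im z_i = ¼ |z_i + I|² - ¼ |z_i - I|²`.  `MvPolynomial.induction_on`.
-/

namespace Pool.Agent.Work.MP_49847a_an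

open MvPolynomial

private theorem dec_mul {n : ℕ} {φ ψ : (Fin n → ℂ) → ℝ}
    (h : ∃ (m : ℕ) (p : Fin m → MvPolynomial (Fin n) ℂ) (m' : ℕ)
      (p' : Fin m' → MvPolynomial (Fin n) ℂ), ∀ z, φ z = nrm p z - nrm p' z)
    (h' : ∃ (m : ℕ) (p : Fin m → MvPolynomial (Fin n) ℂ) (m' : ℕ)
      (p' : Fin m' → MvPolynomial (Fin n) ℂ), ∀ z, ψ z = nrm p z - nrm p' z) :
    ∃ (m : ℕ) (p : Fin m → MvPolynomial (Fin n) ℂ) (m' : ℕ)
      (p' : Fin m' → MvPolynomial (Fin n) ℂ), ∀ z, φ z * ψ z = nrm p z - nrm p' z := by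
  obtain ⟨m1, a, m2, b, h1⟩ := h
  obtain ⟨m3, c, m4, d, h2⟩ := h'
  obtain ⟨ac, hac⟩ := nrm_mul a c
  obtain ⟨bd, hbd⟩ := nrm_mul b d
  obtain ⟨ad, had⟩ := nrm_mul a d
  obtain ⟨bc, hbc⟩ := nrm_mul b c
  obtain ⟨s, hs⟩ := nrm_append ac bd
  obtain ⟨t, ht⟩ := nrm_append ad bc
  refine ⟨_, s, _, t, fun z => ?_⟩
  rw [h1, h2, hs, ht, hac, hbd, had, hbc]
  ring

private theorem dec_quarter {n : ℕ} (i : Fin n) (c : ℂ) :
    ∃ (m : ℕ) (p : Fin m → MvPolynomial (Fin n) ℂ) (m' : ℕ)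
      (p' : Fin m' → MvPolynomial (Fin n) ℂ), ∀ z : Fin n → ℂ,
      (1 / 4 : ℝ) * (‖z i + c‖ ^ 2 - ‖z i - c‖ ^ 2) = nrm p z - nrm p' z := by
  refine ⟨1, fun _ => C (1 / 2) * (X i + C c), 1, fun _ => C (1 / 2) * (X i - C c), fun z => ?_⟩
  rw [nrm_one, nrm_one]
  simp only [eval_mul, eval_C, eval_add, eval_sub, eval_X, norm_mul, mul_pow]
  norm_num
  ring

theorem dec {n : ℕ} (F : MvPolynomial (Fin n ⊕ Fin n) ℝ) :
    ∃ (m : ℕ) (p : Fin m → MvPolynomial (Fin n) ℂ) (m' : ℕ)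
      (p' : Fin m' → MvPolynomial (Fin n) ℂ), ∀ z, ev F z = nrm p z - nrm p' z := by
  induction F using MvPolynomial.induction_on with
  | C c =>
    rcases le_total 0 c with hc | hc
    · obtain ⟨s, hs⟩ := nrm_const (n := n) hc
      obtain ⟨t, ht⟩ := nrm_const (n := n) (le_refl (0 : ℝ))
      exact ⟨_, s, _, t, fun z => by rw [ev_C, hs, ht, sub_zero]⟩
    · obtain ⟨s, hs⟩ := nrm_const (n := n) (neg_nonneg.mpr hc)
      obtain ⟨t, ht⟩ := nrm_const (n := n) (le_refl (0 : ℝ))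
      exact ⟨_, t, _, s, fun z => by rw [ev_C, hs, ht]; ring⟩
  | add F G hF hG =>
    obtain ⟨m1, a, m2, b, h1⟩ := hF
    obtain ⟨m3, c, m4, d, h2⟩ := hG
    obtain ⟨s, hs⟩ := nrm_append a c
    obtain ⟨t, ht⟩ := nrm_append b d
    refine ⟨_, s, _, t, fun z => ?_⟩
    rw [ev_add, h1, h2, hs, ht]
    ring
  | mul_X F v hF =>
    have hX : ∃ (m : ℕ) (p : Fin m → MvPolynomial (Fin n) ℂ) (m' : ℕ)
        (p' : Fin m' → MvPolynomial (Fin n) ℂ),
        ∀ z, ev (X v : MvPolynomial (Fin n ⊕ Fin n) ℝ) z = nrm p z - nrm p' z := by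
      rcases v with i | i
      · obtain ⟨m1, a, m2, b, h1⟩ := dec_quarter i 1
        refine ⟨m1, a, m2, b, fun z => ?_⟩
        rw [← h1 z]
        simp only [ev, eval_X, Sum.elim_inl]
        rw [← Complex.normSq_eq_norm_sq, ← Complex.normSq_eq_norm_sq, Complex.normSq_apply,
          Complex.normSq_apply]
        simp only [Complex.add_re, Complex.add_im, Complex.sub_re, Complex.sub_im, Complex.one_re,
          Complex.one_im]
        ring
      · obtain ⟨m1, a, m2, b, h1⟩ := dec_quarter i Complex.I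
        refine ⟨m1, a, m2, b, fun z => ?_⟩
        rw [← h1 z]
        simp only [ev, eval_X, Sum.elim_inr]
        rw [← Complex.normSq_eq_norm_sq, ← Complex.normSq_eq_norm_sq, Complex.normSq_apply,
          Complex.normSq_apply]
        simp only [Complex.add_re, Complex.add_im, Complex.sub_re, Complex.sub_im, Complex.I_re,
          Complex.I_im]
        ring
    obtain ⟨m1, a, m2, b, h1⟩ := dec_mul hF hX
    exact ⟨m1, a, m2, b, fun z => by rw [ev_mul]; exact h1 z⟩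

end Pool.Agent.Work.MP_49847a_an
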