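import Pool.Agent.Work.MP_49847a_an.BdL
import Pool.Agent.Work.MP_49847a_an.Dec

/-!
# Module Arch: the two semirings are archimedean

Proof.  `dec F`: `ev F = nrm p - nrm p'`, `N - ev F = ∑_j (N_j - |p_j|²) + nrm p'`.  For `arch_TL` the
same with `dec G` on `ℂᵏ`: `ev G (PP P z) = ∑ |p_j(P(z))|² - ∑ |p'_j(P(z))|²` and
`eval (PP P z) q = eval z (aeval P q)`; use `Bd_comp`, `HS_sq`.
-/

namespace Pool.Agent.Work.MP_49847a_an

open MvPolynomial

variable {n k : ℕ} {P : Fin k → MvPolynomial (Fin n) ℂ}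

theorem eval_PP (q : MvPolynomial (Fin k) ℂ) (z : Fin n → ℂ) :
    eval (PP P z) q = eval z (aeval P q) := by
  induction q using MvPolynomial.induction_on with
  | C c => simp
  | add p q hp hq => simp only [map_add, hp, hq]
  | mul_X p i hp => simp only [map_mul, hp, eval_X, aeval_X, PP]

private theorem HS_sum {ι : Type*} (s : Finset ι) (φ : ι → (Fin n → ℂ) → ℝ)
    (h : ∀ i ∈ s, HS P (φ i)) : HS P (fun z => ∑ i ∈ s, φ i z) := by
  classical
  induction s using Finset.induction_on with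
  | empty =>
    simp only [Finset.sum_empty]
    exact HS_const le_rfl
  | insert a s ha ih =>
    refine HS_congr (HS_add (h a (Finset.mem_insert_self a s))
      (ih fun i hi => h i (Finset.mem_insert_of_mem hi))) fun z => ?_
    rw [Finset.sum_insert ha]

theorem arch_TT (h : ∀ f, Bd P f) (F : MvPolynomial (Fin n ⊕ Fin n) ℝ) :
    ∃ N : ℝ, HS P (fun z => N - ev F z) := by
  obtain ⟨m, p, m', p', hF⟩ := dec F
  choose M hM using fun j => h (p j)
  refine ⟨∑ j, M j, HS_congr (HS_add (HS_sum Finset.univ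
    (fun j z => M j - ‖eval z (p j)‖ ^ 2) fun j _ => hM j) (HS_nrm p')) fun z => ?_⟩
  rw [hF, Finset.sum_sub_distrib, nrm]
  ring

theorem arch_TL (G : MvPolynomial (Fin k ⊕ Fin k) ℝ) :
    ∃ N : ℝ, HS P (fun z => N - ev G (PP P z)) := by
  obtain ⟨m, p, m', p', hF⟩ := dec G
  choose M hM using fun j => Bd_comp (P := P) (p j)
  refine ⟨∑ j, M j, HS_congr (HS_add (HS_sum Finset.univ
    (fun j z => M j - ‖eval z (aeval P (p j))‖ ^ 2) fun j _ => hM j)
      (HS_nrm fun j => aeval P (p' j))) fun z => ?_⟩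
  rw [hF, Finset.sum_sub_distrib, nrm, nrm, nrm]
  simp only [eval_PP]
  ring

end Pool.Agent.Work.MP_49847a_an
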