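import Pool.Agent.Work.MP_49847a_an.HSL

/-!
# Module BdL: the bounded polynomials form an algebra

Proofs.  Enlarging `N` is allowed (`HS_const`), so `N, N' ≥ 0`.
(Bd_C) `N = ‖c‖²`.  (Bd_add) `2N + 2N' - |f+g|² = 2(N - |f|²) + 2(N' - |g|²) + |f-g|²`.
(Bd_mul) `N N' - |fg|² = N (N' - |g|²) + |g|² (N - |f|²)`.
(Bd_P) `1 - |P_j|² = ∑_{i ≠ j} |P_i|² - (‖P‖² - 1)`.
(Bd_all), (Bd_comp): `MvPolynomial.induction_on`.
-/

namespace Pool.Agent.Work.MP_49847a_an

open MvPolynomial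

variable {n k : ℕ} {P : Fin k → MvPolynomial (Fin n) ℂ}

theorem Bd_C (c : ℂ) : Bd P (C c) := by
  refine ⟨‖c‖ ^ 2, HS_congr (HS_const le_rfl) fun z => ?_⟩
  simp

theorem Bd_add {f g : MvPolynomial (Fin n) ℂ} (hf : Bd P f) (hg : Bd P g) : Bd P (f + g) := by
  obtain ⟨N, hN⟩ := hf
  obtain ⟨N', hN'⟩ := hg
  refine ⟨2 * N + 2 * N', HS_congr (HS_add (HS_add (HS_mul (HS_const (c := 2) (by norm_num)) hN)
    (HS_mul (HS_const (c := 2) (by norm_num)) hN')) (HS_sq (f - g))) fun z => ?_⟩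
  have := parallelogram_law_with_norm ℝ (eval z f) (eval z g)
  rw [map_add, map_sub]
  nlinarith [this]

theorem Bd_mul {f g : MvPolynomial (Fin n) ℂ} (hf : Bd P f) (hg : Bd P g) : Bd P (f * g) := by
  obtain ⟨N, hN⟩ := hf
  obtain ⟨N', hN'⟩ := hg
  -- enlarge `N`
  have hN1 : HS P (fun z => (N + |N|) - ‖eval z f‖ ^ 2) :=
    HS_congr (HS_add hN (HS_const (abs_nonneg N))) fun z => by ring
  have hpos : 0 ≤ N + |N| := by
    have := neg_abs_le N
    linarith
  refine ⟨(N + |N|) * N', HS_congr (HS_add (HS_mul (HS_const hpos) hN')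
    (HS_mul (HS_sq g) hN1)) fun z => ?_⟩
  rw [map_mul, norm_mul]
  ring

theorem Bd_P (j : Fin k) : Bd P (P j) := by
  classical
  refine ⟨1, HS_congr (HS_add (HS_nrm (fun i => if i = j then 0 else P i))
    (HS_rel (C (-1)))) fun z => ?_⟩
  rw [ev_C]
  have h1 : nrm (fun i => if i = j then 0 else P i) z = nrm P z - ‖eval z (P j)‖ ^ 2 := by
    unfold nrm
    rw [← Finset.add_sum_erase _ _ (Finset.mem_univ j),
      ← Finset.add_sum_erase _ (fun i => ‖eval z (P i)‖ ^ 2) (Finset.mem_univ j)]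
    have : ∑ x ∈ Finset.univ.erase j, ‖eval z (if x = j then 0 else P x)‖ ^ 2 =
        ∑ x ∈ Finset.univ.erase j, ‖eval z (P x)‖ ^ 2 := by
      refine Finset.sum_congr rfl fun x hx => ?_
      rw [if_neg (Finset.ne_of_mem_erase hx)]
    rw [this]
    simp
  rw [h1]
  ring

theorem Bd_all (h : ∀ i, Bd P (X i)) (f : MvPolynomial (Fin n) ℂ) : Bd P f := by
  induction f using MvPolynomial.induction_on with
  | C a => exact Bd_C a
  | add p q hp hq => exact Bd_add hp hq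
  | mul_X p i hp => exact Bd_mul hp (h i)

theorem Bd_comp (q : MvPolynomial (Fin k) ℂ) : Bd P (aeval P q) := by
  induction q using MvPolynomial.induction_on with
  | C a =>
    rw [aeval_C]
    exact Bd_C a
  | add p q hp hq =>
    rw [map_add]
    exact Bd_add hp hq
  | mul_X p i hp =>
    rw [map_mul, aeval_X]
    exact Bd_mul hp (Bd_P i)

end Pool.Agent.Work.MP_49847a_an
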