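import Pool.Agent.Work.MP_49847a_an.Defs

/-!
# Module Cpt: `XX P` is compact

Proof.  Closed: `nrm P` is continuous.  Bounded: `X i` is a root of a monic polynomial over
`R = Algebra.adjoin ℂ (Set.range P)`, whose coefficients are `aeval P q_l`
(`Algebra.adjoin_range_eq_range_aeval`); on `XX P` the point `PP P z` is in the closed unit ball of
`ℂᵏ` (each `|P_j(z)| ≤ 1`), where all `|q_l|` are `≤ B` (compactness); so
`z_i^d = - ∑_{l<d} c_l z_i^l`, `|c_l| ≤ B`, gives `|z_i| ≤ 1 + d B`.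
-/

namespace Pool.Agent.Work.MP_49847a_an

open MvPolynomial

private theorem cpt_root {d : ℕ} {B : ℝ} (hB : 0 ≤ B) {x : ℂ} {c : ℕ → ℂ}
    (hc : ∀ l < d, ‖c l‖ ≤ B) (h : ∑ l ∈ Finset.range d, c l * x ^ l + x ^ d = 0) :
    ‖x‖ ≤ 1 + d * B := by
  by_contra hx
  rw [not_le] at hx
  have hdB : 0 ≤ (d : ℝ) * B := mul_nonneg (Nat.cast_nonneg d) hB
  have hx1 : 1 ≤ ‖x‖ := by linarith
  rcases Nat.eq_zero_or_pos d with rfl | hd
  · simp at h
  have h1 : ‖x‖ ^ d ≤ ∑ l ∈ Finset.range d, B * ‖x‖ ^ (d - 1) := by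
    have e : x ^ d = -∑ l ∈ Finset.range d, c l * x ^ l := by
      linear_combination h
    calc ‖x‖ ^ d = ‖x ^ d‖ := (norm_pow x d).symm
      _ = ‖∑ l ∈ Finset.range d, c l * x ^ l‖ := by rw [e, norm_neg]
      _ ≤ ∑ l ∈ Finset.range d, ‖c l * x ^ l‖ := norm_sum_le _ _
      _ ≤ ∑ l ∈ Finset.range d, B * ‖x‖ ^ (d - 1) := by
          apply Finset.sum_le_sum
          intro l hl
          rw [Finset.mem_range] at hl
          rw [norm_mul, norm_pow]
          exact mul_le_mul (hc l hl) (pow_le_pow_right₀ hx1 (by omega)) (by positivity) hB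
  rw [Finset.sum_const, Finset.card_range, nsmul_eq_mul, ← mul_assoc] at h1
  have h2 : ‖x‖ ^ d = ‖x‖ * ‖x‖ ^ (d - 1) := by
    rw [← pow_succ']
    congr 1
    omega
  rw [h2] at h1
  have h3 : 0 < ‖x‖ ^ (d - 1) := by positivity
  have h4 := le_of_mul_le_mul_right h1 h3
  linarith

private theorem cpt_bdd {n k : ℕ} {P : Fin k → MvPolynomial (Fin n) ℂ}
    {f : MvPolynomial (Fin n) ℂ} (hf : f ∈ Algebra.adjoin ℂ (Set.range P)) :
    ∃ B : ℝ, 0 ≤ B ∧ ∀ z ∈ XX P, ‖eval z f‖ ≤ B := by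
  induction hf using Algebra.adjoin_induction with
  | mem x hx =>
    obtain ⟨j, rfl⟩ := hx
    refine ⟨1, zero_le_one, fun z hz => ?_⟩
    have h1 : nrm P z = 1 := hz
    have h2 : ‖eval z (P j)‖ ^ 2 ≤ nrm P z :=
      Finset.single_le_sum (f := fun j => ‖eval z (P j)‖ ^ 2) (fun i _ => by positivity)
        (Finset.mem_univ j)
    rw [h1] at h2
    exact (sq_le_one_iff₀ (norm_nonneg _)).1 h2
  | algebraMap r =>
    refine ⟨‖r‖, norm_nonneg _, fun z _ => ?_⟩
    rw [algebraMap_eq, eval_C]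
  | add x y _ _ hx hy =>
    obtain ⟨B, hB, h⟩ := hx
    obtain ⟨B', hB', h'⟩ := hy
    refine ⟨B + B', add_nonneg hB hB', fun z hz => ?_⟩
    rw [map_add]
    exact (norm_add_le _ _).trans (add_le_add (h z hz) (h' z hz))
  | mul x y _ _ hx hy =>
    obtain ⟨B, hB, h⟩ := hx
    obtain ⟨B', hB', h'⟩ := hy
    refine ⟨B * B', mul_nonneg hB hB', fun z hz => ?_⟩
    rw [map_mul, norm_mul]
    exact mul_le_mul (h z hz) (h' z hz) (norm_nonneg _) hB

private theorem cpt_coord {n k : ℕ} {P : Fin k → MvPolynomial (Fin n) ℂ} (hP : FiniteMap P)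
    (i : Fin n) : ∃ B : ℝ, 0 ≤ B ∧ ∀ z ∈ XX P, ‖z i‖ ≤ B := by
  obtain ⟨p, hp, h0⟩ := hP i
  choose b hb hb' using fun l : ℕ => cpt_bdd (P := P) (p.coeff l).2
  set B : ℝ := ∑ l ∈ Finset.range p.natDegree, b l with hBd
  have hB0 : 0 ≤ B := Finset.sum_nonneg (fun l _ => hb l)
  refine ⟨1 + p.natDegree * B, by positivity, fun z hz => ?_⟩
  have h1 := congrArg (eval z) h0
  rw [map_zero, Polynomial.hom_eval₂, Polynomial.eval₂_eq_sum_range, Finset.sum_range_succ] at h1
  have hlead : p.coeff p.natDegree = 1 := hp.coeff_natDegree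
  rw [hlead, map_one, one_mul, eval_X] at h1
  refine cpt_root hB0 (c := fun l => eval z (p.coeff l : MvPolynomial (Fin n) ℂ)) ?_ h1
  intro l hl
  exact (hb' l z hz).trans
    (Finset.single_le_sum (f := b) (fun l _ => hb l) (Finset.mem_range.2 hl))

theorem isCompact_XX {n k : ℕ} {P : Fin k → MvPolynomial (Fin n) ℂ} (hP : FiniteMap P) :
    IsCompact (XX P) := by
  choose B hB hB' using cpt_coord hP
  have hcl : IsClosed (XX P) := by
    have hc : Continuous (fun z : Fin n → ℂ => nrm P z) := by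
      unfold nrm
      exact continuous_finsetSum _ (fun j _ => ((P j).continuous_eval.norm).pow 2)
    exact isClosed_eq hc continuous_const
  refine Metric.isCompact_of_isClosed_isBounded hcl ?_
  refine Metric.isBounded_closedBall.subset (s := XX P)
    (t := Metric.closedBall (0 : Fin n → ℂ) (∑ i, B i)) ?_
  intro z hz
  rw [Metric.mem_closedBall, dist_zero_right, pi_norm_le_iff_of_nonneg
    (Finset.sum_nonneg (fun i _ => hB i))]
  intro i
  exact (hB' i z hz).trans (Finset.single_le_sum (f := B) (fun i _ => hB i) (Finset.mem_univ i))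

end Pool.Agent.Work.MP_49847a_an
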