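import Pool.Agent.Work.MP_49847a_an.Jac

/-!
# Module Nak: near a good point every polynomial is a fraction of polynomials in `P`

Proof.  `R = Algebra.adjoin ℂ (Set.range P)`, `M = MvPolynomial (Fin n) ℂ` is a finite `R`-module
(`hP` and finite type: `Algebra.IsIntegral.finite`), `N = ⊥` as a subalgebra, i.e. the submodule
`R · 1` of `M`; `I ⊂ R` the ideal of the elements vanishing at `x`.  By `ideal_eq`, every `f ∈ M` is
`C (f x) + ∑_j a_j (P j - C (P j x))`, and `P j - C (P j x) ∈ I`, so `⊤ ≤ N ⊔ I • ⊤`.  Nakayama for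
the finite module `M ⧸ N` (`Submodule.exists_sub_one_mem_and_smul_eq_zero_of_fg_of_le_smul`): there is
`r ∈ R` with `r - 1 ∈ I` and `r • f ∈ N` for all `f`.  `r = aeval P g`, `r f = aeval P u`
(`Algebra.adjoin_range_eq_range_aeval`), and `eval (PP P x) g = r(x) = 1`.
-/

namespace Pool.Agent.Work.MP_49847a_an

open MvPolynomial

private theorem nak_eval {n k : ℕ} (P : Fin k → MvPolynomial (Fin n) ℂ) (x : Fin n → ℂ)
    (g : MvPolynomial (Fin k) ℂ) : eval x (aeval P g) = eval (PP P x) g := by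
  induction g using MvPolynomial.induction_on with
  | C a =>
    rw [aeval_C, eval_C]
    exact eval_C a
  | add p q hp hq => rw [map_add, map_add, map_add, hp, hq]
  | mul_X p i hp =>
    rw [map_mul, map_mul, map_mul, hp, aeval_X, eval_X]
    rfl

theorem local_gen {n k : ℕ} {P : Fin k → MvPolynomial (Fin n) ℂ} (hP : FiniteMap P)
    {x : Fin n → ℂ} (hfib : ∀ y, PP P y = PP P x → y = x)
    (himm : ∀ v, (∀ j, dd P x v j = 0) → v = 0) (f : MvPolynomial (Fin n) ℂ) :
    ∃ g u : MvPolynomial (Fin k) ℂ, eval (PP P x) g ≠ 0 ∧ aeval P g * f = aeval P u := by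
  classical
  have hint : ∀ s : MvPolynomial (Fin n) ℂ,
      IsIntegral (Algebra.adjoin ℂ (Set.range P)) s := by
    intro s
    induction s using MvPolynomial.induction_on with
    | C a =>
      have h1 : (C a : MvPolynomial (Fin n) ℂ) ∈ Algebra.adjoin ℂ (Set.range P) :=
        (Algebra.adjoin ℂ (Set.range P)).algebraMap_mem a
      exact isIntegral_algebraMap (R := Algebra.adjoin ℂ (Set.range P)) (x := ⟨C a, h1⟩)
    | add p q hp hq => exact hp.add hq
    | mul_X p i hp => exact hp.mul (hP i)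
  set A := Algebra.adjoin ℂ (Set.range P) with hA
  haveI : Algebra.IsIntegral A (MvPolynomial (Fin n) ℂ) := ⟨hint⟩
  haveI : Algebra.FiniteType A (MvPolynomial (Fin n) ℂ) :=
    Algebra.FiniteType.of_restrictScalars_finiteType ℂ A (MvPolynomial (Fin n) ℂ)
  haveI hfin : Module.Finite A (MvPolynomial (Fin n) ℂ) := Algebra.IsIntegral.finite
  set I : Ideal A := RingHom.ker ((eval x).comp (algebraMap A (MvPolynomial (Fin n) ℂ))) with hI
  set N : Submodule A (MvPolynomial (Fin n) ℂ) := Submodule.span A {1} with hN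
  have hPA : ∀ j, P j ∈ A := fun j => Algebra.subset_adjoin ⟨j, rfl⟩
  have hCA : ∀ c : ℂ, (C c : MvPolynomial (Fin n) ℂ) ∈ A := fun c => A.algebraMap_mem c
  have hgen : ∀ s ∈ Ideal.span (Set.range fun j => P j - C (eval x (P j))),
      s ∈ I • (⊤ : Submodule A (MvPolynomial (Fin n) ℂ)) := by
    intro s hs
    obtain ⟨c, hc⟩ := (Ideal.mem_span_range_iff_exists_fun).1 hs
    rw [← hc]
    refine Submodule.sum_mem _ fun j _ => ?_
    have h1 : P j - C (eval x (P j)) ∈ A := A.sub_mem (hPA j) (hCA _)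
    have h2 : (⟨P j - C (eval x (P j)), h1⟩ : A) ∈ I := by
      show eval x (P j - C (eval x (P j))) = 0
      rw [map_sub, eval_C, sub_self]
    have h3 := Submodule.smul_mem_smul h2 (Submodule.mem_top (x := c j))
    have h4 : (⟨P j - C (eval x (P j)), h1⟩ : A) • c j = c j * (P j - C (eval x (P j))) :=
      mul_comm _ _
    rw [← h4]
    exact h3
  have hNN : (⊤ : Submodule A (MvPolynomial (Fin n) ℂ)) ≤ N ⊔ I • ⊤ := by
    intro s _
    have h1 : s - C (eval x s) ∈ Ideal.span (Set.range fun j => P j - C (eval x (P j))) := by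
      rw [ideal_eq hfib himm, RingHom.mem_ker, map_sub, eval_C, sub_self]
    have h2 : s = C (eval x s) + (s - C (eval x s)) := by ring
    rw [h2]
    refine Submodule.add_mem_sup ?_ (hgen _ h1)
    rw [hN, Submodule.mem_span_singleton]
    exact ⟨⟨C (eval x s), hCA _⟩, mul_one _⟩
  set T : Submodule A (MvPolynomial (Fin n) ℂ ⧸ N) := (⊤ : Submodule A _).map N.mkQ with hT
  have hTfg : T.FG := (Module.Finite.fg_top (R := A)).map N.mkQ
  have hTI : T ≤ I • T := by
    have h1 : T ≤ (N ⊔ I • ⊤).map N.mkQ := Submodule.map_mono hNN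
    rw [Submodule.map_sup, Submodule.map_smul'', ← hT] at h1
    have h2 : N.map N.mkQ = ⊥ := by
      rw [eq_bot_iff]
      rintro _ ⟨y, hy, rfl⟩
      rw [Submodule.mem_bot, Submodule.mkQ_apply, Submodule.Quotient.mk_eq_zero]
      exact hy
    rw [h2, bot_sup_eq] at h1
    exact h1
  obtain ⟨r, hr1, hr2⟩ :=
    Submodule.exists_sub_one_mem_and_smul_eq_zero_of_fg_of_le_smul I T hTfg hTI
  have h3 : r • f ∈ N := by
    have h4 := hr2 (N.mkQ f) (Submodule.mem_map_of_mem Submodule.mem_top)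
    rw [← map_smul, Submodule.mkQ_apply, Submodule.Quotient.mk_eq_zero] at h4
    exact h4
  rw [hN, Submodule.mem_span_singleton] at h3
  obtain ⟨a, ha⟩ := h3
  have hlift : ∀ b : A, ∃ g : MvPolynomial (Fin k) ℂ, aeval P g = (b : MvPolynomial (Fin n) ℂ) := by
    rintro ⟨b, hb⟩
    have hb' : b ∈ Algebra.adjoin ℂ (Set.range P) := hb
    rw [Algebra.adjoin_range_eq_range_aeval] at hb'
    exact hb'
  obtain ⟨g, hg⟩ := hlift r
  obtain ⟨u, hu⟩ := hlift a
  refine ⟨g, u, ?_, ?_⟩
  · rw [← nak_eval, hg]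
    have h5 : eval x ((r - 1 : A) : MvPolynomial (Fin n) ℂ) = 0 := hr1
    have h6 : ((r - 1 : A) : MvPolynomial (Fin n) ℂ) = (r : MvPolynomial (Fin n) ℂ) - 1 := rfl
    rw [h6, map_sub, map_one, sub_eq_zero] at h5
    rw [h5]
    exact one_ne_zero
  · rw [hg, hu]
    have h7 : a • (1 : MvPolynomial (Fin n) ℂ) = (a : MvPolynomial (Fin n) ℂ) := mul_one _
    rw [← h7, ha]
    rfl

end Pool.Agent.Work.MP_49847a_an
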