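import Pool.Agent.Work.MP_49847a_an.Pos
import Pool.Agent.Work.MP_49847a_an.Nak
import Pool.Agent.Work.MP_49847a_an.Cpt

/-!
# Module Boot: every polynomial is bounded

Proof.  For `x ∈ XX P`, a point `y` with `PP P y = PP P x` is in `XX P`, so `y = x` by `hinj`;
`local_gen` gives `g_x, u_x` with `g_x(P(x)) ≠ 0` and `aeval P g_x * f = aeval P u_x`.  By compactness
(`isCompact_XX`) finitely many `g_1, …, g_s`, `u_1, …, u_s` have no common zero on `XX P`:
`∑_l |g_l(P(z))|² ≥ 2c > 0` on `XX P` (if `XX P` is empty take `c = 1`).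
`G` = the real polynomial on `ℂᵏ` with `ev G l = ∑ |g_l(l)|² - c` (`exists_nrm`): `pos_TL` gives
`HS P (∑_l |g_l∘P|² - c)`.  Similarly `N - ∑_l |u_l∘P|² > 0` on `XX P` for large `N` (compactness), so
`HS P (N - ∑_l |u_l∘P|²)`.  Now
`N - c |f|² = (N - ∑_l |u_l∘P|²) + |f|² (∑_l |g_l∘P|² - c)` because `|g_l∘P|² |f|² = |u_l∘P|²`; divide
by `c` (`HS_mul`, `HS_const`).
-/

namespace Pool.Agent.Work.MP_49847a_an

open MvPolynomial

private theorem ev_sum {n : ℕ} {ι : Type*} (s : Finset ι)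
    (F : ι → MvPolynomial (Fin n ⊕ Fin n) ℝ) (z : Fin n → ℂ) :
    ev (∑ i ∈ s, F i) z = ∑ i ∈ s, ev (F i) z := by
  simp only [ev, map_sum]

private theorem PP_cont {n k : ℕ} (P : Fin k → MvPolynomial (Fin n) ℂ) : Continuous (PP P) :=
  continuous_pi fun j => MvPolynomial.continuous_eval (P j)

theorem boot {n k : ℕ} {P : Fin k → MvPolynomial (Fin n) ℂ} (hP : FiniteMap P) (hinj : InjX P)
    (himm : ImmX P) (f : MvPolynomial (Fin n) ℂ) : Bd P f := by
  classical
  have hcpt := isCompact_XX hP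
  have hloc : ∀ x : XX P, ∃ g u : MvPolynomial (Fin k) ℂ, eval (PP P x) g ≠ 0 ∧
      aeval P g * f = aeval P u := by
    rintro ⟨x, hx⟩
    refine local_gen hP (x := x) ?_ (himm x hx) f
    intro y hy
    have hy' : y ∈ XX P := by
      show nrm P y = 1
      have h1 : nrm P y = nrm P x := by
        simp only [nrm]
        refine Finset.sum_congr rfl fun j _ => ?_
        have h2 : eval y (P j) = eval x (P j) := congrFun hy j
        rw [h2]
      rw [h1]
      exact hx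
    exact hinj y hy' x hx fun j => congrFun hy j
  choose g u hg hgu using hloc
  have hcont : ∀ q : MvPolynomial (Fin k) ℂ, Continuous fun z => eval (PP P z) q := fun q =>
    (MvPolynomial.continuous_eval q).comp (PP_cont P)
  obtain ⟨t, ht⟩ := hcpt.elim_finite_subcover (fun x : XX P => {z | eval (PP P z) (g x) ≠ 0})
    (fun x => isOpen_ne_fun (hcont (g x)) continuous_const) (by
      intro x hx
      exact Set.mem_iUnion.mpr ⟨⟨x, hx⟩, hg ⟨x, hx⟩⟩)
  choose Gn hGn using fun x : XX P => exists_norm_sq (g x)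
  choose Un hUn using fun x : XX P => exists_norm_sq (u x)
  -- the lower bound
  obtain ⟨c, hc, hcb⟩ : ∃ c > 0, ∀ z ∈ XX P, c < ∑ x ∈ t, ‖eval (PP P z) (g x)‖ ^ 2 := by
    have hpos : ∀ z ∈ XX P, 0 < ∑ x ∈ t, ‖eval (PP P z) (g x)‖ ^ 2 := by
      intro z hz
      have h1 := ht hz
      simp only [Set.mem_iUnion] at h1
      obtain ⟨x, hx, h2⟩ := h1
      refine Finset.sum_pos' (fun _ _ => by positivity) ⟨x, hx, ?_⟩
      have h3 : eval (PP P z) (g x) ≠ 0 := h2
      positivity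
    have hcs : Continuous fun z => ∑ x ∈ t, ‖eval (PP P z) (g x)‖ ^ 2 :=
      continuous_finsetSum _ fun x _ => ((hcont (g x)).norm).pow 2
    rcases (XX P).eq_empty_or_nonempty with he | hne
    · exact ⟨1, one_pos, fun z hz => by rw [he] at hz; exact absurd hz (Set.notMem_empty z)⟩
    · obtain ⟨z₀, hz₀, hmin⟩ := hcpt.exists_isMinOn hne hcs.continuousOn
      refine ⟨(∑ x ∈ t, ‖eval (PP P z₀) (g x)‖ ^ 2) / 2, by have := hpos z₀ hz₀; linarith,
        fun z hz => ?_⟩
      have h1 := hmin hz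
      have h2 := hpos z₀ hz₀
      simp only [Set.mem_ofPred_eq] at h1
      linarith
  -- the upper bound
  obtain ⟨M, hM⟩ : ∃ M : ℝ, ∀ z ∈ XX P, ∑ x ∈ t, ‖eval (PP P z) (u x)‖ ^ 2 < M := by
    have hcs : Continuous fun z => ∑ x ∈ t, ‖eval (PP P z) (u x)‖ ^ 2 :=
      continuous_finsetSum _ fun x _ => ((hcont (u x)).norm).pow 2
    obtain ⟨B, hB⟩ := hcpt.exists_bound_of_continuousOn hcs.continuousOn
    refine ⟨B + 1, fun z hz => ?_⟩
    have h1 := hB z hz
    have h2 := le_abs_self (∑ x ∈ t, ‖eval (PP P z) (u x)‖ ^ 2)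
    rw [Real.norm_eq_abs] at h1
    linarith
  have e1 : HS P (fun z => ev (∑ x ∈ t, Gn x - C c) (PP P z)) := by
    refine pos_TL hP fun z hz => ?_
    rw [ev_sub, ev_sum, ev_C]
    simp only [hGn]
    linarith [hcb z hz]
  have e2 : HS P (fun z => ev (C M - ∑ x ∈ t, Un x) (PP P z)) := by
    refine pos_TL hP fun z hz => ?_
    rw [ev_sub, ev_sum, ev_C]
    simp only [hUn]
    linarith [hM z hz]
  have e3 : HS P (fun z => (1 / c) * (ev (C M - ∑ x ∈ t, Un x) (PP P z) +
      ‖eval z f‖ ^ 2 * ev (∑ x ∈ t, Gn x - C c) (PP P z))) :=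
    HS_mul (HS_const (by positivity)) (HS_add e2 (HS_mul (HS_sq f) e1))
  refine ⟨M / c, HS_congr e3 fun z => ?_⟩
  have h1 : ∀ x : XX P, ‖eval z f‖ ^ 2 * ‖eval (PP P z) (g x)‖ ^ 2 =
      ‖eval (PP P z) (u x)‖ ^ 2 := by
    intro x
    have h2 := congrArg (eval z) (hgu x)
    rw [eval_mul, ← eval_PP, ← eval_PP] at h2
    rw [← h2, norm_mul, mul_pow]
    ring
  rw [ev_sub, ev_sub, ev_sum, ev_sum, ev_C, ev_C]
  simp only [hGn, hUn]
  rw [mul_sub, Finset.mul_sum]
  simp only [h1]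
  field_simp
  ring

end Pool.Agent.Work.MP_49847a_an
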