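import Mathlib

/-!
# Module KD: archimedean Positivstellensatz for semirings (Krivine, Kadison-Dubois)

Proof.  Suppose `f ∉ S`.  If `-1 ∈ S` then for every `a`, `a = (N + a) + (-1) N ∈ S` where
`N - (-a) ∈ S`, `N ≥ 0` (enlarge `N`): contradiction.  So `-1 ∉ S`.
(1) `q(a) = inf {r : r - a ∈ S}` is real valued (`r - a ∈ S`, `r' + a ∈ S` give `r + r' ≥ 0`, else
`-1 ∈ S` by scaling with `hmul`, `hreal`) and sublinear.  `q(-f) ≥ 0` since `r + f ∈ S` with `r < 0`
gives `f = (r + f) + (-r) ∈ S`.  Hahn-Banach (`exists_extension_of_le_sublinear`) on the line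
`ℝ (-f)`: a linear `φ ≤ q` with `φ(f) ≤ 0`; `φ ≤ q` gives `φ ≥ 0` on `S` and `φ 1 = 1`.
(2) Let `K ⊂ (A → ℝ)` (product topology) be the set of the linear `φ` with `φ 1 = 1`, `φ ≥ 0` on `S`:
convex, closed, contained in a product of intervals (`φ a ≤ N_a`), so compact; nonempty by (1).
`K_f = {φ ∈ K : φ f = min}` is a compact face; `IsCompact.extremePoints_nonempty` gives an extreme
point `φ` of `K_f`, which is extreme in `K`, and `φ f ≤ 0`.
(3) An extreme point `φ` of `K` is multiplicative: let `s ∈ S` with `1 - s ∈ S`.  If `0 < φ s < 1`,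
`a ↦ φ(s a)/φ s` and `a ↦ φ((1-s) a)/φ(1-s)` are in `K` and `φ` is a proper convex combination, so
`φ(s a) = φ s φ a`.  If `φ s = 0`: for `t ∈ S`, `N - t ∈ S`, `0 ≤ φ(s t) ≤ N φ s = 0`, and every `a`
is `N - (N - a)`, a difference of elements of `S`; same for `φ s = 1` with `1 - s`.  Every element of
`S` is a multiple of such an `s` and `A = S - S`.
(4) So `φ` is an algebra homomorphism, nonnegative on `S`, with `φ f ≤ 0`: contradiction.
-/

namespace Pool.Agent.Work.MP_49847a_an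

open MvPolynomial

/-- positive functionals -/
private def kdK {A : Type*} [CommRing A] [Algebra ℝ A] (S : Set A) : Set (A → ℝ) :=
  {φ | (∀ a b, φ (a + b) = φ a + φ b) ∧ (∀ (c : ℝ) a, φ (c • a) = c * φ a) ∧ φ 1 = 1 ∧
    ∀ s ∈ S, 0 ≤ φ s}

private theorem kd_smul {A : Type*} [CommRing A] [Algebra ℝ A] {S : Set A}
    (hmul : ∀ a ∈ S, ∀ b ∈ S, a * b ∈ S) (hreal : ∀ c : ℝ, 0 ≤ c → algebraMap ℝ A c ∈ S)
    {c : ℝ} (hc : 0 ≤ c) {a : A} (ha : a ∈ S) : c • a ∈ S := by
  rw [Algebra.smul_def]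
  exact hmul _ (hreal c hc) _ ha

private theorem kd_algMap {A : Type*} [CommRing A] [Algebra ℝ A] {S : Set A} {φ : A → ℝ}
    (hφ : φ ∈ kdK S) (c : ℝ) : φ (algebraMap ℝ A c) = c := by
  rw [Algebra.algebraMap_eq_smul_one, hφ.2.1, hφ.2.2.1, mul_one]

private theorem kd_neg {A : Type*} [CommRing A] [Algebra ℝ A] {S : Set A} {φ : A → ℝ}
    (hφ : φ ∈ kdK S) (a : A) : φ (-a) = -φ a := by
  have : (-a) = (-1 : ℝ) • a := by rw [neg_smul, one_smul]
  rw [this, hφ.2.1]
  ring

private theorem kd_sub {A : Type*} [CommRing A] [Algebra ℝ A] {S : Set A} {φ : A → ℝ}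
    (hφ : φ ∈ kdK S) (a b : A) : φ (a - b) = φ a - φ b := by
  rw [sub_eq_add_neg, hφ.1, kd_neg hφ]
  ring

private theorem kd_zero {A : Type*} [CommRing A] [Algebra ℝ A] {S : Set A} {φ : A → ℝ}
    (hφ : φ ∈ kdK S) : φ 0 = 0 := by
  have := hφ.2.1 0 0
  rw [zero_smul, zero_mul] at this
  exact this

private theorem kd_compact {A : Type*} [CommRing A] [Algebra ℝ A] (S : Set A)
    (harch : ∀ a : A, ∃ N : ℝ, algebraMap ℝ A N - a ∈ S) : IsCompact (kdK S) := by
  choose N hN using harch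
  have hb : kdK S ⊆ Set.pi Set.univ (fun a => Set.Icc (-N (-a)) (N a)) := by
    intro φ hφ a _
    constructor
    · have h1 := hφ.2.2.2 _ (hN (-a))
      rw [kd_sub hφ, kd_algMap hφ, kd_neg hφ] at h1
      linarith
    · have h1 := hφ.2.2.2 _ (hN a)
      rw [kd_sub hφ, kd_algMap hφ] at h1
      linarith
  refine IsCompact.of_isClosed_subset (isCompact_univ_pi (fun a => isCompact_Icc)) ?_ hb
  have e : kdK S = (⋂ a, ⋂ b, {φ : A → ℝ | φ (a + b) = φ a + φ b}) ∩
      ((⋂ c : ℝ, ⋂ a, {φ : A → ℝ | φ (c • a) = c * φ a}) ∩ ({φ : A → ℝ | φ 1 = 1} ∩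
      ⋂ s : S, {φ : A → ℝ | 0 ≤ φ s})) := by
    ext φ
    simp only [kdK, Set.mem_ofPred_eq, Set.mem_inter_iff, Set.mem_iInter, Subtype.forall]
  rw [e]
  refine IsClosed.inter ?_ (IsClosed.inter ?_ (IsClosed.inter ?_ ?_))
  · exact isClosed_iInter fun a => isClosed_iInter fun b =>
      isClosed_eq (continuous_apply _) (by fun_prop)
  · exact isClosed_iInter fun c => isClosed_iInter fun a =>
      isClosed_eq (continuous_apply _) (continuous_const.mul (continuous_apply _))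
  · exact isClosed_eq (continuous_apply _) continuous_const
  · exact isClosed_iInter fun s => isClosed_le continuous_const (continuous_apply _)

private theorem kd_one {A : Type*} [CommRing A] [Algebra ℝ A] {S : Set A}
    (hreal : ∀ c : ℝ, 0 ≤ c → algebraMap ℝ A c ∈ S) : (1 : A) ∈ S := by
  have := hreal 1 zero_le_one
  rwa [map_one] at this

private theorem kd_exists {A : Type*} [CommRing A] [Algebra ℝ A] (S : Set A)
    (hadd : ∀ a ∈ S, ∀ b ∈ S, a + b ∈ S) (hmul : ∀ a ∈ S, ∀ b ∈ S, a * b ∈ S)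
    (hreal : ∀ c : ℝ, 0 ≤ c → algebraMap ℝ A c ∈ S)
    (harch : ∀ a : A, ∃ N : ℝ, algebraMap ℝ A N - a ∈ S) {f : A} (hf : f ∉ S)
    (hone : (-1 : A) ∉ S) : ∃ φ ∈ kdK S, φ f ≤ 0 := by
  have h0S : (0 : A) ∈ S := by
    have := hreal 0 le_rfl
    rwa [map_zero] at this
  have hnz : (1 : A) ≠ 0 := by
    intro h
    apply hone
    rw [h, neg_zero]
    exact h0S
  let C : PointedCone ℝ A :=
    { carrier := {x | ∃ s ∈ S, ∃ t : ℝ, 0 ≤ t ∧ x = s - t • f}
      add_mem' := by
        rintro x y ⟨s, hs, t, ht, rfl⟩ ⟨s', hs', t', ht', rfl⟩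
        exact ⟨s + s', hadd s hs s' hs', t + t', add_nonneg ht ht', by rw [add_smul]; ring⟩
      zero_mem' := ⟨0, h0S, 0, le_rfl, by simp⟩
      smul_mem' := by
        rintro c x ⟨s, hs, t, ht, rfl⟩
        refine ⟨(c : ℝ) • s, kd_smul hmul hreal c.2 hs, c * t, mul_nonneg c.2 ht, ?_⟩
        change (c : ℝ) • (s - t • f) = _
        rw [smul_sub, smul_smul] }
  have hC : ∀ x, x ∈ C ↔ ∃ s ∈ S, ∃ t : ℝ, 0 ≤ t ∧ x = s - t • f := fun x => Iff.rfl
  obtain ⟨g, hg1, hg2⟩ := riesz_extension C (LinearPMap.mkSpanSingleton (1 : A) (1 : ℝ) hnz) (by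
    rintro ⟨x, hx⟩ hxC
    have hx' : x ∈ Submodule.span ℝ {(1 : A)} := hx
    rw [Submodule.mem_span_singleton] at hx'
    obtain ⟨c, rfl⟩ := hx'
    rw [LinearPMap.mkSpanSingleton'_apply]
    simp only [RingHom.id_apply, smul_eq_mul, mul_one]
    obtain ⟨s, hs, t, ht, h⟩ := (hC _).1 hxC
    change c • (1 : A) = s - t • f at h
    by_contra hc
    rw [not_le] at hc
    rcases ht.eq_or_lt with ht0 | ht0
    · rw [← ht0, zero_smul, sub_zero] at h
      apply hone
      have : (-1 : A) = (1 / (-c)) • s := by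
        rw [← h, smul_smul]
        have : 1 / -c * c = -1 := by
          rw [one_div, inv_neg, neg_mul, inv_mul_cancel₀ hc.ne]
        rw [this, neg_smul, one_smul]
      rw [this]
      exact kd_smul hmul hreal (by apply one_div_nonneg.2; linarith) hs
    · apply hf
      have : f = (1 / t) • (s + (-c) • (1 : A)) := by
        have e1 : t • f = s + (-c) • (1 : A) := by
          rw [neg_smul, h]
          ring
        rw [← e1, smul_smul, one_div_mul_cancel ht0.ne', one_smul]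
      rw [this]
      apply kd_smul hmul hreal (one_div_nonneg.2 ht0.le)
      apply hadd s hs
      exact kd_smul hmul hreal (by linarith) (kd_one hreal)) (by
    intro y
    obtain ⟨N, hN⟩ := harch (-y)
    refine ⟨⟨N • (1 : A), Submodule.smul_mem _ _ (Submodule.mem_span_singleton_self _)⟩, ?_⟩
    rw [hC]
    refine ⟨N • (1 : A) + y, ?_, 0, le_rfl, by simp⟩
    rw [← Algebra.algebraMap_eq_smul_one]
    rwa [sub_neg_eq_add] at hN)
  refine ⟨g, ⟨fun a b => map_add g a b, fun c a => by rw [map_smul, smul_eq_mul], ?_, ?_⟩, ?_⟩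
  · have := hg1 ⟨1, Submodule.mem_span_singleton_self _⟩
    rw [LinearPMap.mkSpanSingleton'_apply_self] at this
    exact this
  · intro s hs
    exact hg2 s ((hC s).2 ⟨s, hs, 0, le_rfl, by simp⟩)
  · have := hg2 (-f) ((hC _).2 ⟨0, h0S, 1, zero_le_one, by simp⟩)
    rw [map_neg] at this
    linarith

private theorem kd_diff {A : Type*} [CommRing A] [Algebra ℝ A] (S : Set A)
    (hadd : ∀ a ∈ S, ∀ b ∈ S, a + b ∈ S) (hreal : ∀ c : ℝ, 0 ≤ c → algebraMap ℝ A c ∈ S)
    (harch : ∀ a : A, ∃ N : ℝ, algebraMap ℝ A N - a ∈ S) (a : A) :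
    ∃ N : ℝ, 0 < N ∧ algebraMap ℝ A N - a ∈ S := by
  obtain ⟨N, hN⟩ := harch a
  refine ⟨max N 0 + 1, by positivity, ?_⟩
  have e : algebraMap ℝ A (max N 0 + 1) - a =
      (algebraMap ℝ A N - a) + algebraMap ℝ A (max N 0 + 1 - N) := by
    rw [map_sub (algebraMap ℝ A) (max N 0 + 1) N]
    ring
  rw [e]
  exact hadd _ hN _ (hreal _ (by linarith [le_max_left N 0]))

private theorem kd_mult {A : Type*} [CommRing A] [Algebra ℝ A] (S : Set A)
    (hadd : ∀ a ∈ S, ∀ b ∈ S, a + b ∈ S) (hmul : ∀ a ∈ S, ∀ b ∈ S, a * b ∈ S)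
    (hreal : ∀ c : ℝ, 0 ≤ c → algebraMap ℝ A c ∈ S)
    (harch : ∀ a : A, ∃ N : ℝ, algebraMap ℝ A N - a ∈ S) {φ : A → ℝ}
    (hφ : φ ∈ (kdK S).extremePoints ℝ) (a b : A) : φ (a * b) = φ a * φ b := by
  have hK : φ ∈ kdK S := hφ.1
  have pos := kd_diff S hadd hreal harch
  -- the degenerate case
  have deg : ∀ s ∈ S, φ s = 0 → ∀ a, φ (s * a) = 0 := by
    intro s hs hs0
    have h1 : ∀ t ∈ S, φ (s * t) = 0 := by
      intro t ht
      obtain ⟨N, hN, hN'⟩ := pos t
      have h2 : 0 ≤ φ (s * t) := hK.2.2.2 _ (hmul s hs t ht)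
      have h3 : 0 ≤ φ (s * (algebraMap ℝ A N - t)) := hK.2.2.2 _ (hmul s hs _ hN')
      have h4 : s * (algebraMap ℝ A N - t) = N • s - s * t := by
        rw [Algebra.smul_def]
        ring
      rw [h4, kd_sub hK, hK.2.1, hs0] at h3
      linarith
    intro a
    obtain ⟨N, hN, hN'⟩ := pos a
    have h2 : s * a = s * algebraMap ℝ A N - s * (algebraMap ℝ A N - a) := by ring
    rw [h2, kd_sub hK, h1 _ (hreal N hN.le), h1 _ hN']
    ring
  -- the main case
  have main : ∀ s ∈ S, 1 - s ∈ S → ∀ a, φ (s * a) = φ s * φ a := by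
    intro s hs hs1 a
    have c0 : 0 ≤ φ s := hK.2.2.2 s hs
    have c1 : 0 ≤ φ (1 - s) := hK.2.2.2 _ hs1
    have c2 : φ (1 - s) = 1 - φ s := by rw [kd_sub hK, hK.2.2.1]
    rcases c0.eq_or_lt with h | h
    · rw [deg s hs h.symm, ← h, zero_mul]
    · rcases c1.eq_or_lt with h' | h'
      · have h1 := deg _ hs1 h'.symm a
        have h2 : (1 - s) * a = a - s * a := by ring
        rw [h2, kd_sub hK] at h1
        have h3 : φ s = 1 := by linarith
        rw [h3, one_mul]
        linarith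
      · have m1 : (fun x => φ (s * x) / φ s) ∈ kdK S := by
          refine ⟨fun x y => ?_, fun c x => ?_, ?_, fun t ht => ?_⟩
          · simp only
            rw [mul_add, hK.1, add_div]
          · simp only
            rw [mul_smul_comm, hK.2.1, mul_div_assoc]
          · simp only
            rw [mul_one, div_self h.ne']
          · exact div_nonneg (hK.2.2.2 _ (hmul s hs t ht)) h.le
        have m2 : (fun x => φ ((1 - s) * x) / φ (1 - s)) ∈ kdK S := by
          refine ⟨fun x y => ?_, fun c x => ?_, ?_, fun t ht => ?_⟩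
          · simp only
            rw [mul_add, hK.1, add_div]
          · simp only
            rw [mul_smul_comm, hK.2.1, mul_div_assoc]
          · simp only
            rw [mul_one, div_self h'.ne']
          · exact div_nonneg (hK.2.2.2 _ (hmul _ hs1 t ht)) h'.le
        have hseg : φ ∈ openSegment ℝ (fun x => φ (s * x) / φ s)
            (fun x => φ ((1 - s) * x) / φ (1 - s)) := by
          refine ⟨φ s, φ (1 - s), h, h', by rw [c2]; ring, ?_⟩
          funext x
          simp only [Pi.add_apply, Pi.smul_apply, smul_eq_mul]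
          rw [mul_div_cancel₀ _ h.ne', mul_div_cancel₀ _ h'.ne', ← hK.1]
          congr 1
          ring
        have h1 := (mem_extremePoints.1 hφ).2 _ m1 _ m2 hseg
        have h2 := congrFun h1.1 a
        change φ (s * a) / φ s = φ a at h2
        rw [div_eq_iff h.ne'] at h2
        rw [h2]
        ring
  have gen : ∀ s ∈ S, ∀ a, φ (s * a) = φ s * φ a := by
    intro s hs a
    obtain ⟨N, hN, hN'⟩ := pos s
    have h1 : (1 / N) • s ∈ S := kd_smul hmul hreal (one_div_nonneg.2 hN.le) hs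
    have h2 : 1 - (1 / N) • s ∈ S := by
      have : 1 - (1 / N) • s = (1 / N) • (algebraMap ℝ A N - s) := by
        rw [smul_sub, Algebra.algebraMap_eq_smul_one, smul_smul, one_div_mul_cancel hN.ne',
          one_smul]
      rw [this]
      exact kd_smul hmul hreal (one_div_nonneg.2 hN.le) hN'
    have h3 := main _ h1 h2 a
    rw [smul_mul_assoc, hK.2.1, hK.2.1, mul_assoc] at h3
    exact mul_left_cancel₀ (one_div_ne_zero hN.ne') h3
  obtain ⟨N, hN, hN'⟩ := pos a
  have h1 : a * b = algebraMap ℝ A N * b - (algebraMap ℝ A N - a) * b := by ring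
  rw [h1, kd_sub hK, gen _ (hreal N hN.le), gen _ hN', kd_sub hK]
  ring

theorem kd {A : Type*} [CommRing A] [Algebra ℝ A] (S : Set A)
    (hadd : ∀ a ∈ S, ∀ b ∈ S, a + b ∈ S) (hmul : ∀ a ∈ S, ∀ b ∈ S, a * b ∈ S)
    (hreal : ∀ c : ℝ, 0 ≤ c → algebraMap ℝ A c ∈ S)
    (harch : ∀ a : A, ∃ N : ℝ, algebraMap ℝ A N - a ∈ S) {f : A}
    (hf : ∀ φ : A →ₐ[ℝ] ℝ, (∀ s ∈ S, 0 ≤ φ s) → 0 < φ f) : f ∈ S := by
  classical
  by_cases hone : (-1 : A) ∈ S
  · obtain ⟨N, hN, hN'⟩ := kd_diff S hadd hreal harch (-f)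
    have : f = (algebraMap ℝ A N - -f) + (-1) * algebraMap ℝ A N := by ring
    rw [this]
    exact hadd _ hN' _ (hmul _ hone _ (hreal N hN.le))
  by_contra hfS
  obtain ⟨φ0, hφ0, hφ0f⟩ := kd_exists S hadd hmul hreal harch hfS hone
  have hcomp := kd_compact S harch
  set l : StrongDual ℝ (A → ℝ) := -(ContinuousLinearMap.proj (R := ℝ) (φ := fun _ : A => ℝ) f)
    with hl
  have lap : ∀ φ : A → ℝ, l φ = -φ f := fun φ => rfl
  have hexp : IsExposed ℝ (kdK S) (l.toExposed (kdK S)) :=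
    ContinuousLinearMap.toExposed.isExposed
  have hc2 : IsCompact (l.toExposed (kdK S)) := hexp.isCompact hcomp
  have hne : (l.toExposed (kdK S)).Nonempty := by
    obtain ⟨ψ, hψ, hmax⟩ := hcomp.exists_isMaxOn ⟨φ0, hφ0⟩ l.continuous.continuousOn
    exact ⟨ψ, hψ, fun y hy => hmax hy⟩
  obtain ⟨φ, hφ⟩ := hc2.extremePoints_nonempty hne
  have hφK : φ ∈ (kdK S).extremePoints ℝ :=
    hexp.isExtreme.extremePoints_subset_extremePoints hφ
  have hφf : φ f ≤ 0 := by
    have := hφ.1.2 φ0 hφ0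
    rw [lap, lap] at this
    linarith
  have hm := kd_mult S hadd hmul hreal harch hφK
  have hK : φ ∈ kdK S := hφK.1
  let Φ : A →ₐ[ℝ] ℝ :=
    { toFun := φ
      map_one' := hK.2.2.1
      map_mul' := hm
      map_zero' := kd_zero hK
      map_add' := hK.1
      commutes' := fun c => kd_algMap hK c }
  have := hf Φ (fun s hs => hK.2.2.2 s hs)
  have h2 : Φ f = φ f := rfl
  rw [h2] at this
  linarith

end Pool.Agent.Work.MP_49847a_an
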