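import Mathlib

/-!
# Hermitian sums of squares and level sets of finite polynomial maps: definitions

* `ev R z`: the value at `z ∈ ℂⁿ` of a real polynomial `R` in the real and imaginary parts of the
  coordinates (variable `inl i` is `Re z_i`, variable `inr i` is `Im z_i`);
* `nrm p z = ∑_j |p_j(z)|²` for a finite family `p` of holomorphic polynomials;
* `XX P = {z : ‖P(z)‖² = 1}`;
* `FiniteMap P`: `ℂ[z]` is integral over `ℂ[P_1, …, P_k]`;
* `dd P a v = dP(a) v`;
* `StrPsc P`: the Levi form of `‖P‖² - 1` is positive on the complex tangent vectors of `XX P`;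
* `InjX P`: `P` is injective on `XX P`;
* `Quillen P`: every real polynomial which is positive on `XX P` is a sum of squared moduli of
  holomorphic polynomials modulo `‖P‖² - 1`;
* `SumsOnX P`: every real polynomial which is positive on `XX P` agrees on `XX P` with a sum of
  squared moduli of holomorphic polynomials;
* `Generates P`: every real polynomial which vanishes on `XX P` is divisible by `‖P‖² - 1`.
-/

namespace Pool.Agent.Work.MP_49847a_an

open MvPolynomial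

/-- the value of a real polynomial in the real and imaginary parts of the coordinates -/
noncomputable def ev {n : ℕ} (R : MvPolynomial (Fin n ⊕ Fin n) ℝ) (z : Fin n → ℂ) : ℝ :=
  eval (Sum.elim (fun i => (z i).re) (fun i => (z i).im)) R

/-- `∑_j |p_j(z)|²` -/
noncomputable def nrm {n m : ℕ} (p : Fin m → MvPolynomial (Fin n) ℂ) (z : Fin n → ℂ) : ℝ :=
  ∑ j, ‖eval z (p j)‖ ^ 2

/-- the set `‖P(z)‖ = 1` -/
def XX {n k : ℕ} (P : Fin k → MvPolynomial (Fin n) ℂ) : Set (Fin n → ℂ) := {z | nrm P z = 1}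

/-- `P` is a finite map -/
def FiniteMap {n k : ℕ} (P : Fin k → MvPolynomial (Fin n) ℂ) : Prop :=
  ∀ i : Fin n, IsIntegral (Algebra.adjoin ℂ (Set.range P)) (X i : MvPolynomial (Fin n) ℂ)

/-- the `j`-th coordinate of `dP(a) v` -/
noncomputable def dd {n k : ℕ} (P : Fin k → MvPolynomial (Fin n) ℂ) (a v : Fin n → ℂ)
    (j : Fin k) : ℂ := ∑ i, eval a (pderiv i (P j)) * v i

/-- strong pseudoconvexity of `XX P`: with `r = ‖P‖² - 1`, `∂r(a) v = ∑_j (dP(a)v)_j conj(P_j(a))`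
and the Levi form is `∑_j |(dP(a)v)_j|²` -/
def StrPsc {n k : ℕ} (P : Fin k → MvPolynomial (Fin n) ℂ) : Prop :=
  ∀ a ∈ XX P, ∀ v : Fin n → ℂ, v ≠ 0 →
    ∑ j, dd P a v j * (starRingEnd ℂ) (eval a (P j)) = 0 → 0 < ∑ j, ‖dd P a v j‖ ^ 2

/-- `P` is injective on `XX P` -/
def InjX {n k : ℕ} (P : Fin k → MvPolynomial (Fin n) ℂ) : Prop :=
  ∀ a ∈ XX P, ∀ b ∈ XX P, (∀ j, eval a (P j) = eval b (P j)) → a = b

/-- every real polynomial positive on `XX P` is a Hermitian sum of squares modulo `‖P‖² - 1` -/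
def Quillen {n k : ℕ} (P : Fin k → MvPolynomial (Fin n) ℂ) : Prop :=
  ∀ R : MvPolynomial (Fin n ⊕ Fin n) ℝ, (∀ z ∈ XX P, 0 < ev R z) →
    ∃ (m : ℕ) (p : Fin m → MvPolynomial (Fin n) ℂ) (H : MvPolynomial (Fin n ⊕ Fin n) ℝ),
      ∀ z, ev R z = nrm p z + (nrm P z - 1) * ev H z

/-- every real polynomial positive on `XX P` agrees on `XX P` with a Hermitian sum of squares -/
def SumsOnX {n k : ℕ} (P : Fin k → MvPolynomial (Fin n) ℂ) : Prop :=
  ∀ R : MvPolynomial (Fin n ⊕ Fin n) ℝ, (∀ z ∈ XX P, 0 < ev R z) →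
    ∃ (m : ℕ) (p : Fin m → MvPolynomial (Fin n) ℂ), ∀ z ∈ XX P, ev R z = nrm p z

/-- every real polynomial which vanishes on `XX P` is a multiple of `‖P‖² - 1` -/
def Generates {n k : ℕ} (P : Fin k → MvPolynomial (Fin n) ℂ) : Prop :=
  ∀ F : MvPolynomial (Fin n ⊕ Fin n) ℝ, (∀ z ∈ XX P, ev F z = 0) →
    ∃ H : MvPolynomial (Fin n ⊕ Fin n) ℝ, ∀ z, ev F z = (nrm P z - 1) * ev H z

/-- `P` is immersive along `XX P` -/
def ImmX {n k : ℕ} (P : Fin k → MvPolynomial (Fin n) ℂ) : Prop :=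
  ∀ a ∈ XX P, ∀ v : Fin n → ℂ, (∀ j, dd P a v j = 0) → v = 0

/-- the function `φ` is a Hermitian sum of squares modulo `‖P‖² - 1` -/
def HS {n k : ℕ} (P : Fin k → MvPolynomial (Fin n) ℂ) (φ : (Fin n → ℂ) → ℝ) : Prop :=
  ∃ (m : ℕ) (p : Fin m → MvPolynomial (Fin n) ℂ) (H : MvPolynomial (Fin n ⊕ Fin n) ℝ),
    ∀ z, φ z = nrm p z + (nrm P z - 1) * ev H z

/-- the point `P(z)` -/
noncomputable def PP {n k : ℕ} (P : Fin k → MvPolynomial (Fin n) ℂ) (z : Fin n → ℂ) : Fin k → ℂ :=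
  fun j => eval z (P j)

/-- `f` is bounded: `N - |f|²` is a Hermitian sum of squares modulo `‖P‖² - 1` for some `N` -/
def Bd {n k : ℕ} (P : Fin k → MvPolynomial (Fin n) ℂ) (f : MvPolynomial (Fin n) ℂ) : Prop :=
  ∃ N : ℝ, HS P (fun z => N - ‖eval z f‖ ^ 2)

/-- the polarisation of a real polynomial: holomorphic in `z`, antiholomorphic in `w`,
equal to `ev F z` for `w = z` -/
noncomputable def pol {n : ℕ} (F : MvPolynomial (Fin n ⊕ Fin n) ℝ) (z w : Fin n → ℂ) : ℂ :=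
  eval (Sum.elim (fun i => (z i + (starRingEnd ℂ) (w i)) / 2)
    (fun i => (z i - (starRingEnd ℂ) (w i)) / (2 * Complex.I))) (map (algebraMap ℝ ℂ) F)

end Pool.Agent.Work.MP_49847a_an
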