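import Pool.Agent.Work.MP_49847a_an.Defs

/-!
# Module Ev: evaluation of real polynomials, squared moduli

Proofs.  `ev F z` is `eval` at a real point, so it is a ring homomorphism in `F`; (ev_ext)
`MvPolynomial.funext` (every real point is of the form `(re z, im z)`); (exists_re_im) induction on
`p` (`MvPolynomial.induction_on`); (exists_norm_sq) `‖a + i b‖² = a² + b²`; (exists_nrm) sum;
(nrm_append) `Fin.append`; (nrm_mul) the family `p_i q_j` indexed by `Fin (m * m')`
(`finProdFinEquiv`); (nrm_const) `C (√c)`.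
-/

namespace Pool.Agent.Work.MP_49847a_an

open MvPolynomial

variable {n : ℕ}

theorem ev_add (F G : MvPolynomial (Fin n ⊕ Fin n) ℝ) (z : Fin n → ℂ) :
    ev (F + G) z = ev F z + ev G z := by
  simp [ev]

theorem ev_sub (F G : MvPolynomial (Fin n ⊕ Fin n) ℝ) (z : Fin n → ℂ) :
    ev (F - G) z = ev F z - ev G z := by
  simp [ev]

theorem ev_mul (F G : MvPolynomial (Fin n ⊕ Fin n) ℝ) (z : Fin n → ℂ) :
    ev (F * G) z = ev F z * ev G z := by
  simp [ev]

theorem ev_C (c : ℝ) (z : Fin n → ℂ) : ev (C c : MvPolynomial (Fin n ⊕ Fin n) ℝ) z = c := by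
  simp [ev]

theorem ev_continuous (F : MvPolynomial (Fin n ⊕ Fin n) ℝ) : Continuous (ev F) := by
  unfold ev
  have h1 : Continuous (fun z : Fin n → ℂ =>
      (Sum.elim (fun i => (z i).re) (fun i => (z i).im) : Fin n ⊕ Fin n → ℝ)) := by
    refine continuous_pi fun i => ?_
    rcases i with i | i
    · simp only [Sum.elim_inl]
      exact Complex.continuous_re.comp (continuous_apply i)
    · simp only [Sum.elim_inr]
      exact Complex.continuous_im.comp (continuous_apply i)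
  exact (MvPolynomial.continuous_eval F).comp h1

theorem ev_ext {F G : MvPolynomial (Fin n ⊕ Fin n) ℝ} (h : ∀ z, ev F z = ev G z) : F = G := by
  refine MvPolynomial.funext fun x => ?_
  have := h (fun i => (x (Sum.inl i) : ℂ) + (x (Sum.inr i) : ℂ) * Complex.I)
  unfold ev at this
  have e : (Sum.elim (fun i => ((x (Sum.inl i) : ℂ) + (x (Sum.inr i) : ℂ) * Complex.I).re)
      (fun i => ((x (Sum.inl i) : ℂ) + (x (Sum.inr i) : ℂ) * Complex.I).im) : Fin n ⊕ Fin n → ℝ)
      = x := by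
    funext i
    rcases i with i | i <;> simp
  rwa [e] at this

theorem exists_re_im (p : MvPolynomial (Fin n) ℂ) : ∃ F G : MvPolynomial (Fin n ⊕ Fin n) ℝ,
    ∀ z, eval z p = ((ev F z : ℝ) : ℂ) + ((ev G z : ℝ) : ℂ) * Complex.I := by
  induction p using MvPolynomial.induction_on with
  | C a =>
    refine ⟨C a.re, C a.im, fun z => ?_⟩
    rw [ev_C, ev_C, eval_C]
    exact (Complex.re_add_im a).symm
  | add p q hp hq =>
    obtain ⟨F, G, h⟩ := hp
    obtain ⟨F', G', h'⟩ := hq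
    refine ⟨F + F', G + G', fun z => ?_⟩
    rw [map_add, h, h', ev_add, ev_add]
    push_cast
    ring
  | mul_X p i hp =>
    obtain ⟨F, G, h⟩ := hp
    refine ⟨F * X (Sum.inl i) - G * X (Sum.inr i), F * X (Sum.inr i) + G * X (Sum.inl i),
      fun z => ?_⟩
    rw [map_mul, h, eval_X, ev_sub, ev_add, ev_mul, ev_mul, ev_mul, ev_mul]
    have h1 : ev (X (Sum.inl i)) z = (z i).re := by simp [ev]
    have h2 : ev (X (Sum.inr i)) z = (z i).im := by simp [ev]
    rw [h1, h2]
    apply Complex.ext <;> simp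

theorem exists_norm_sq (p : MvPolynomial (Fin n) ℂ) : ∃ F : MvPolynomial (Fin n ⊕ Fin n) ℝ,
    ∀ z, ev F z = ‖eval z p‖ ^ 2 := by
  obtain ⟨F, G, h⟩ := exists_re_im p
  refine ⟨F * F + G * G, fun z => ?_⟩
  rw [ev_add, ev_mul, ev_mul, h z, ← Complex.normSq_eq_norm_sq, Complex.normSq_add_mul_I]
  ring

theorem exists_nrm {m : ℕ} (p : Fin m → MvPolynomial (Fin n) ℂ) :
    ∃ F : MvPolynomial (Fin n ⊕ Fin n) ℝ, ∀ z, ev F z = nrm p z := by
  choose F hF using fun j => exists_norm_sq (p j)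
  refine ⟨∑ j, F j, fun z => ?_⟩
  unfold nrm
  rw [← Finset.sum_congr rfl fun j _ => hF j z]
  unfold ev
  rw [map_sum]

theorem nrm_append {m m' : ℕ} (p : Fin m → MvPolynomial (Fin n) ℂ)
    (q : Fin m' → MvPolynomial (Fin n) ℂ) :
    ∃ s : Fin (m + m') → MvPolynomial (Fin n) ℂ, ∀ z, nrm s z = nrm p z + nrm q z := by
  refine ⟨Fin.append p q, fun z => ?_⟩
  unfold nrm
  rw [Fin.sum_univ_add]
  simp

theorem nrm_mul {m m' : ℕ} (p : Fin m → MvPolynomial (Fin n) ℂ)
    (q : Fin m' → MvPolynomial (Fin n) ℂ) :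
    ∃ s : Fin (m * m') → MvPolynomial (Fin n) ℂ, ∀ z, nrm s z = nrm p z * nrm q z := by
  refine ⟨fun i => p (finProdFinEquiv.symm i).1 * q (finProdFinEquiv.symm i).2, fun z => ?_⟩
  unfold nrm
  rw [Finset.sum_mul_sum, ← Finset.sum_product', Finset.univ_product_univ]
  refine Fintype.sum_equiv finProdFinEquiv.symm _ _ fun i => ?_
  rw [map_mul, norm_mul, mul_pow]

theorem nrm_const {c : ℝ} (hc : 0 ≤ c) :
    ∃ s : Fin 1 → MvPolynomial (Fin n) ℂ, ∀ z, nrm s z = c := by
  refine ⟨fun _ => C ((Real.sqrt c : ℝ) : ℂ), fun z => ?_⟩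
  unfold nrm
  simp [Real.sq_sqrt hc]

theorem nrm_one (f : MvPolynomial (Fin n) ℂ) (z : Fin n → ℂ) :
    nrm (fun _ : Fin 1 => f) z = ‖eval z f‖ ^ 2 := by
  simp [nrm]

end Pool.Agent.Work.MP_49847a_an
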