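import Pool.Agent.Work.MP_49847a_an.Ev

/-!
# Module HSL: the Hermitian sums of squares modulo `‖P‖² - 1` form a semiring

Proofs.  Let `r = nrm P - 1` (the value of a real polynomial `ρ`, `exists_nrm`).
(HS_mul) `(s + r h)(s' + r h') = s s' + r (s h' + s' h + r h h')` (`nrm_mul`; `s`, `s'` are values of
real polynomials, `exists_nrm`).  The others are direct.
-/

namespace Pool.Agent.Work.MP_49847a_an

open MvPolynomial

variable {n k : ℕ} {P : Fin k → MvPolynomial (Fin n) ℂ}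

theorem HS_congr {φ ψ : (Fin n → ℂ) → ℝ} (h : HS P φ) (he : ∀ z, ψ z = φ z) : HS P ψ := by
  obtain ⟨m, p, H, h⟩ := h
  exact ⟨m, p, H, fun z => by rw [he z, h z]⟩

theorem HS_add {φ ψ : (Fin n → ℂ) → ℝ} (h : HS P φ) (h' : HS P ψ) :
    HS P (fun z => φ z + ψ z) := by
  obtain ⟨m, p, H, h⟩ := h
  obtain ⟨m', p', H', h'⟩ := h'
  obtain ⟨s, hs⟩ := nrm_append p p'
  refine ⟨m + m', s, H + H', fun z => ?_⟩
  beta_reduce
  rw [h z, h' z, hs z, ev_add]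
  ring

theorem HS_mul {φ ψ : (Fin n → ℂ) → ℝ} (h : HS P φ) (h' : HS P ψ) :
    HS P (fun z => φ z * ψ z) := by
  obtain ⟨m, p, H, h⟩ := h
  obtain ⟨m', p', H', h'⟩ := h'
  obtain ⟨s, hs⟩ := nrm_mul p p'
  obtain ⟨ρ, hρ⟩ := exists_nrm P
  obtain ⟨σ, hσ⟩ := exists_nrm p
  obtain ⟨σ', hσ'⟩ := exists_nrm p'
  refine ⟨m * m', s, σ * H' + σ' * H + (ρ - C 1) * H * H', fun z => ?_⟩
  beta_reduce
  rw [h z, h' z, hs z, ev_add, ev_add, ev_mul, ev_mul, ev_mul, ev_mul, ev_sub, ev_C, hρ, hσ, hσ']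
  ring

theorem HS_const {c : ℝ} (hc : 0 ≤ c) : HS P (fun _ => c) := by
  obtain ⟨s, hs⟩ := nrm_const (n := n) hc
  refine ⟨1, s, C 0, fun z => ?_⟩
  rw [hs z, ev_C]
  ring

theorem HS_nrm {m : ℕ} (p : Fin m → MvPolynomial (Fin n) ℂ) : HS P (nrm p) := by
  refine ⟨m, p, C 0, fun z => ?_⟩
  rw [ev_C]
  ring

theorem HS_sq (f : MvPolynomial (Fin n) ℂ) : HS P (fun z => ‖eval z f‖ ^ 2) :=
  HS_congr (HS_nrm (fun _ : Fin 1 => f)) fun z => (nrm_one f z).symm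

theorem HS_rel (H : MvPolynomial (Fin n ⊕ Fin n) ℝ) :
    HS P (fun z => (nrm P z - 1) * ev H z) := by
  refine ⟨0, Fin.elim0, H, fun z => ?_⟩
  simp [nrm]

end Pool.Agent.Work.MP_49847a_an
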