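import Pool.Agent.Work.MP_49847a_an.Defs

/-!
# Module Jac: the fibre ideal is maximal

Proof.  Let `J` be the left side, `m = ker (eval x)`; `J ≤ m`.  `m` is generated by the `X i - C (x i)`.
(a) The zero locus of `J` is `{x}` by `hfib`, so the radical of `J` is `m`
(`MvPolynomial.vanishingIdeal_zeroLocus_eq_radical`), and as `m` is finitely generated,
`m ^ N ≤ J` for some `N` (`Ideal.exists_pow_le_of_le_radical_of_fg`).
(b) `m ≤ J ⊔ m ^ 2`: for `f` polynomial, `f - C (f x) - ∑_i (∂_i f)(x) (X i - C (x i)) ∈ m ^ 2` (Taylor,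
induction on `f`).  By `himm` the linear map `v ↦ dd P x v` is injective, so every coordinate
functional `v ↦ v i` is a combination `∑_j c_j (dd P x v j)` (left inverse,
`LinearMap.exists_leftInverse_of_injective`); hence `X i - C (x i) - ∑_j c_j (P j - C (P j x)) ∈ m^2`.
(c) `m ≤ J ⊔ m ^ (s+1)` for all `s`, by induction: `m^s ≤ (J ⊔ m^2)^s ≤ J ⊔ m^(s+1)`; `s = N`.
-/

namespace Pool.Agent.Work.MP_49847a_an

open MvPolynomial

/-- Taylor expansion modulo the square of the maximal ideal -/
private theorem jac_taylor {n : ℕ} (x : Fin n → ℂ) (f : MvPolynomial (Fin n) ℂ) :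
    f - C (eval x f) - ∑ i, C (eval x (pderiv i f)) * (X i - C (x i)) ∈
      RingHom.ker (eval x) ^ 2 := by
  have hY : ∀ i : Fin n, (X i - C (x i) : MvPolynomial (Fin n) ℂ) ∈ RingHom.ker (eval x) := by
    intro i
    rw [RingHom.mem_ker, map_sub, eval_X, eval_C, sub_self]
  induction f using MvPolynomial.induction_on with
  | C a =>
    have h1 : ∑ i : Fin n, C (eval x (pderiv i (C a : MvPolynomial (Fin n) ℂ))) *
        (X i - C (x i)) = (0 : MvPolynomial (Fin n) ℂ) :=
      Finset.sum_eq_zero fun i _ => by rw [pderiv_C, map_zero, map_zero, zero_mul]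
    rw [h1, eval_C, sub_self, sub_zero]
    exact Ideal.zero_mem _
  | add p q hp hq =>
    have h1 : (p + q) - C (eval x (p + q)) - ∑ i, C (eval x (pderiv i (p + q))) * (X i - C (x i)) =
        (p - C (eval x p) - ∑ i, C (eval x (pderiv i p)) * (X i - C (x i))) +
        (q - C (eval x q) - ∑ i, C (eval x (pderiv i q)) * (X i - C (x i))) := by
      simp only [map_add, add_mul, Finset.sum_add_distrib]
      ring
    rw [h1]
    exact Ideal.add_mem _ hp hq
  | mul_X p j hp =>
    have h0 : p - C (eval x p) ∈ RingHom.ker (eval x) := by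
      rw [RingHom.mem_ker, map_sub, eval_C, sub_self]
    have h2 : ∑ i, C (eval x (pderiv i (p * X j))) * (X i - C (x i)) =
        (∑ i, C (eval x (pderiv i p)) * (X i - C (x i))) * C (x j) +
          C (eval x p) * (X j - C (x j)) := by
      have h3 : ∀ i, C (eval x (pderiv i (p * X j))) * (X i - C (x i)) =
          C (eval x (pderiv i p)) * (X i - C (x i)) * C (x j) +
            (if i = j then C (eval x p) * (X j - C (x j)) else 0) := by
        intro i
        rw [pderiv_mul]
        by_cases hij : i = j
        · subst hij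
          rw [pderiv_X_self, if_pos rfl, map_add, map_mul, map_mul, eval_X, map_one, mul_one,
            map_add, map_mul]
          ring
        · rw [pderiv_X_of_ne (Ne.symm hij), if_neg hij, mul_zero, add_zero, add_zero, map_mul,
            eval_X, map_mul]
          ring
      rw [Finset.sum_congr rfl fun i _ => h3 i, Finset.sum_add_distrib, Finset.sum_mul,
        Finset.sum_ite_eq' Finset.univ j, if_pos (Finset.mem_univ j)]
    have h1 : p * X j - C (eval x (p * X j)) -
        ∑ i, C (eval x (pderiv i (p * X j))) * (X i - C (x i)) =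
        (p - C (eval x p) - ∑ i, C (eval x (pderiv i p)) * (X i - C (x i))) * C (x j) +
          (p - C (eval x p)) * (X j - C (x j)) := by
      rw [h2, map_mul, eval_X, map_mul]
      ring
    rw [h1]
    refine Ideal.add_mem _ (Ideal.mul_mem_right _ _ hp) ?_
    rw [pow_two]
    exact Ideal.mul_mem_mul h0 (hY j)

theorem ideal_eq {n k : ℕ} {P : Fin k → MvPolynomial (Fin n) ℂ} {x : Fin n → ℂ}
    (hfib : ∀ y, PP P y = PP P x → y = x) (himm : ∀ v, (∀ j, dd P x v j = 0) → v = 0) :
    Ideal.span (Set.range fun j => P j - C (eval x (P j))) = RingHom.ker (eval x) := by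
  classical
  set J : Ideal (MvPolynomial (Fin n) ℂ) :=
    Ideal.span (Set.range fun j => P j - C (eval x (P j))) with hJ
  set m : Ideal (MvPolynomial (Fin n) ℂ) := RingHom.ker (eval x) with hm
  have hgen : ∀ j, P j - C (eval x (P j)) ∈ J := fun j => Ideal.subset_span ⟨j, rfl⟩
  have hJm : J ≤ m := by
    rw [hJ, Ideal.span_le]
    rintro _ ⟨j, rfl⟩
    show P j - C (eval x (P j)) ∈ m
    rw [hm, RingHom.mem_ker, map_sub, eval_C, sub_self]
  refine le_antisymm hJm ?_
  -- the radical
  have hrad : m ≤ J.radical := by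
    rw [← vanishingIdeal_zeroLocus_eq_radical (K := ℂ) J]
    intro f hf y hy
    have hyx : y = x := by
      apply hfib
      funext j
      have h1 := hy _ (hgen j)
      rw [map_sub, aeval_C, sub_eq_zero] at h1
      show eval y (P j) = eval x (P j)
      rw [← coe_aeval_eq_eval]
      exact h1
    rw [hyx]
    have h2 : eval x f = 0 := hf
    rw [← coe_aeval_eq_eval] at h2
    exact h2
  obtain ⟨N, hN⟩ := Ideal.exists_pow_le_of_le_radical_of_fg hrad (IsNoetherian.noetherian m)
  -- the cotangent space
  set L : (Fin n → ℂ) →ₗ[ℂ] (Fin k → ℂ) :=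
    { toFun := fun v j => dd P x v j
      map_add' := fun v w => by
        funext j
        simp only [dd, Pi.add_apply, mul_add, Finset.sum_add_distrib]
      map_smul' := fun c v => by
        funext j
        simp only [dd, Pi.smul_apply, smul_eq_mul, RingHom.id_apply, Finset.mul_sum]
        exact Finset.sum_congr rfl fun i _ => by ring } with hL
  have hLker : LinearMap.ker L = ⊥ := by
    rw [LinearMap.ker_eq_bot']
    intro v hv
    exact himm v fun j => congrFun hv j
  obtain ⟨G, hG⟩ := LinearMap.exists_leftInverse_of_injective L hLker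
  have hcoef : ∀ i l : Fin n, ∑ j, G (Pi.single j 1) i * eval x (pderiv l (P j)) =
      if l = i then 1 else 0 := by
    intro i l
    have h1 : G (L (Pi.single l 1)) = Pi.single l 1 := by
      have := congrArg (fun T : (Fin n → ℂ) →ₗ[ℂ] (Fin n → ℂ) => T (Pi.single l 1)) hG
      exact this
    have h2 : L (Pi.single l 1) = ∑ j, eval x (pderiv l (P j)) • (Pi.single j 1 : Fin k → ℂ) := by
      funext j
      rw [Finset.sum_apply]
      have h3 : L (Pi.single l 1) j = eval x (pderiv l (P j)) := by
        show dd P x (Pi.single l 1) j = _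
        unfold dd
        rw [Finset.sum_eq_single l]
        · rw [Pi.single_eq_same, mul_one]
        · intro b _ hb
          rw [Pi.single_eq_of_ne hb, mul_zero]
        · intro h
          exact absurd (Finset.mem_univ l) h
      rw [h3, Finset.sum_eq_single j]
      · rw [Pi.smul_apply, Pi.single_eq_same, smul_eq_mul, mul_one]
      · intro b _ hb
        rw [Pi.smul_apply, Pi.single_eq_of_ne (Ne.symm hb), smul_zero]
      · intro h
        exact absurd (Finset.mem_univ j) h
    rw [h2, map_sum] at h1
    have h4 := congrFun h1 i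
    rw [Finset.sum_apply] at h4
    have h5 : (Pi.single l 1 : Fin n → ℂ) i = if l = i then 1 else 0 := by
      rw [Pi.single_apply]
      by_cases h6 : i = l
      · rw [if_pos h6, if_pos h6.symm]
      · rw [if_neg h6, if_neg (Ne.symm h6)]
    rw [h5] at h4
    rw [← h4]
    refine Finset.sum_congr rfl fun j _ => ?_
    rw [map_smul, Pi.smul_apply, smul_eq_mul, mul_comm]
  have hYm : ∀ i : Fin n, (X i - C (x i) : MvPolynomial (Fin n) ℂ) ∈ J ⊔ m ^ 2 := by
    intro i
    have h1 : (X i - C (x i) : MvPolynomial (Fin n) ℂ) =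
        (∑ j, C (G (Pi.single j 1) i) * (P j - C (eval x (P j)))) -
        ∑ j, C (G (Pi.single j 1) i) * (P j - C (eval x (P j)) -
          ∑ l, C (eval x (pderiv l (P j))) * (X l - C (x l))) := by
      rw [← Finset.sum_sub_distrib]
      have h2 : ∀ j, C (G (Pi.single j 1) i) * (P j - C (eval x (P j))) -
          C (G (Pi.single j 1) i) * (P j - C (eval x (P j)) -
          ∑ l, C (eval x (pderiv l (P j))) * (X l - C (x l))) =
          ∑ l, C (G (Pi.single j 1) i * eval x (pderiv l (P j))) * (X l - C (x l)) := by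
        intro j
        rw [mul_sub (C (G (Pi.single j 1) i)) (P j - C (eval x (P j))), sub_sub_cancel,
          Finset.mul_sum]
        refine Finset.sum_congr rfl fun l _ => ?_
        rw [map_mul]
        ring
      rw [Finset.sum_congr rfl fun j _ => h2 j, Finset.sum_comm]
      have h3 : ∀ l, ∑ j, C (G (Pi.single j 1) i * eval x (pderiv l (P j))) * (X l - C (x l)) =
          if l = i then (X i - C (x i) : MvPolynomial (Fin n) ℂ) else 0 := by
        intro l
        rw [← Finset.sum_mul, ← map_sum, hcoef]
        by_cases h6 : l = i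
        · rw [if_pos h6, if_pos h6, map_one, one_mul, h6]
        · rw [if_neg h6, if_neg h6, map_zero, zero_mul]
      rw [Finset.sum_congr rfl fun l _ => h3 l, Finset.sum_ite_eq' Finset.univ i,
        if_pos (Finset.mem_univ i)]
    rw [h1]
    refine Ideal.sub_mem _ (Ideal.sum_mem _ fun j _ => ?_) (Ideal.sum_mem _ fun j _ => ?_)
    · exact Ideal.mul_mem_left _ _ (Ideal.mem_sup_left (hgen j))
    · exact Ideal.mul_mem_left _ _ (Ideal.mem_sup_right (jac_taylor x (P j)))
  have hb : m ≤ J ⊔ m ^ 2 := by
    intro f hf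
    have h1 : f = (f - C (eval x f) - ∑ i, C (eval x (pderiv i f)) * (X i - C (x i))) +
        ∑ i, C (eval x (pderiv i f)) * (X i - C (x i)) := by
      have h2 : eval x f = 0 := hf
      rw [h2, map_zero]
      ring
    rw [h1]
    exact Ideal.add_mem _ (Ideal.mem_sup_right (jac_taylor x f))
      (Ideal.sum_mem _ fun i _ => Ideal.mul_mem_left _ _ (hYm i))
  have hc : ∀ s : ℕ, m ≤ J ⊔ m ^ (s + 1) := by
    intro s
    induction s with
    | zero =>
      rw [zero_add, pow_one]
      exact le_sup_right
    | succ s ih =>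
      calc m ≤ J ⊔ m ^ 2 := hb
        _ = J ⊔ m * m := by rw [pow_two]
        _ ≤ J ⊔ m * (J ⊔ m ^ (s + 1)) := sup_le_sup_left (Ideal.mul_mono_right ih) J
        _ = J ⊔ (m * J ⊔ m * m ^ (s + 1)) := by rw [Ideal.mul_sup]
        _ ≤ J ⊔ m ^ (s + 1 + 1) := by
          refine sup_le le_sup_left (sup_le ?_ ?_)
          · exact Ideal.mul_le_right.trans le_sup_left
          · rw [← pow_succ']
            exact le_sup_right
  exact (hc N).trans (sup_le le_rfl ((Ideal.pow_le_pow_right (Nat.le_succ N)).trans hN))

end Pool.Agent.Work.MP_49847a_an
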