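import Pool.Agent.Work.MP_49847a_an.Defs

/-!
# Module Lie: lying over

Proof.  Let `R = Algebra.adjoin ℂ (Set.range P)` (`= (aeval P).range`,
`Algebra.adjoin_range_eq_range_aeval`).  By `h` the evaluation at `l` factors through `aeval P` and
gives an algebra homomorphism `R → ℂ` with `P j ↦ l j`; its kernel `m` is a maximal ideal of `R`.
`ℂ[z]` is integral over `R` (`hP`: the variables are integral, `Algebra.adjoin` of them is
everything), so there is a maximal ideal `M` of `ℂ[z]` over `m`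
(`Ideal.exists_ideal_over_maximal_of_isIntegral`; `R → ℂ[z]` is injective), and `M` is the ideal of a
point `z` (`MvPolynomial.isMaximal_iff_eq_vanishingIdeal_singleton`).  Since `P j - C (l j) ∈ m ⊂ M`,
`eval z (P j) = l j`.
-/

namespace Pool.Agent.Work.MP_49847a_an

open MvPolynomial

theorem lie_over {n k : ℕ} {P : Fin k → MvPolynomial (Fin n) ℂ} (hP : FiniteMap P)
    (l : Fin k → ℂ) (h : ∀ q : MvPolynomial (Fin k) ℂ, aeval P q = 0 → eval l q = 0) :
    ∃ z, PP P z = l := by
  classical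
  have hint : ∀ s : MvPolynomial (Fin n) ℂ,
      IsIntegral (Algebra.adjoin ℂ (Set.range P)) s := by
    intro s
    induction s using MvPolynomial.induction_on with
    | C a =>
      have h1 : (C a : MvPolynomial (Fin n) ℂ) ∈ Algebra.adjoin ℂ (Set.range P) :=
        (Algebra.adjoin ℂ (Set.range P)).algebraMap_mem a
      exact isIntegral_algebraMap (R := Algebra.adjoin ℂ (Set.range P)) (x := ⟨C a, h1⟩)
    | add p q hp hq => exact hp.add hq
    | mul_X p i hp => exact hp.mul (hP i)
  have hg : (algebraMap (Algebra.adjoin ℂ (Set.range P)) (MvPolynomial (Fin n) ℂ)).IsIntegral :=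
    fun s => hint s
  have hmem : ∀ q : MvPolynomial (Fin k) ℂ, aeval P q ∈ Algebra.adjoin ℂ (Set.range P) := by
    intro q
    rw [Algebra.adjoin_range_eq_range_aeval]
    exact ⟨q, rfl⟩
  set f : MvPolynomial (Fin k) ℂ →+* Algebra.adjoin ℂ (Set.range P) :=
    ((aeval P).codRestrict (Algebra.adjoin ℂ (Set.range P)) hmem).toRingHom with hf
  have hfs : Function.Surjective f := by
    rintro ⟨a, ha⟩
    have ha' := ha
    rw [Algebra.adjoin_range_eq_range_aeval] at ha'
    obtain ⟨q, hq⟩ := ha'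
    exact ⟨q, Subtype.ext hq⟩
  have hfi : f.IsIntegral := RingHom.isIntegral_of_surjective f hfs
  have hcomp := RingHom.IsIntegral.trans f _ hfi hg
  letI : Algebra (MvPolynomial (Fin k) ℂ) (MvPolynomial (Fin n) ℂ) :=
    (aeval P).toRingHom.toAlgebra
  have hmap : (algebraMap (MvPolynomial (Fin k) ℂ) (MvPolynomial (Fin n) ℂ)) =
      (aeval P).toRingHom := rfl
  haveI : Algebra.IsIntegral (MvPolynomial (Fin k) ℂ) (MvPolynomial (Fin n) ℂ) :=
    ⟨fun s => hcomp s⟩
  haveI hmax : (RingHom.ker (eval l) : Ideal (MvPolynomial (Fin k) ℂ)).IsMaximal :=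
    RingHom.ker_isMaximal_of_surjective _ fun c => ⟨C c, eval_C c⟩
  obtain ⟨Q, hQ, hQc⟩ := Ideal.exists_ideal_over_maximal_of_isIntegral
    (R := MvPolynomial (Fin k) ℂ) (S := MvPolynomial (Fin n) ℂ) (RingHom.ker (eval l))
    (fun q hq => h q hq)
  obtain ⟨z, hz⟩ := isMaximal_iff_eq_vanishingIdeal_singleton.1 hQ
  refine ⟨z, ?_⟩
  funext j
  have h1 : (X j - C (l j) : MvPolynomial (Fin k) ℂ) ∈ RingHom.ker (eval l) := by
    rw [RingHom.mem_ker, map_sub, eval_X, eval_C, sub_self]
  rw [← hQc, Ideal.mem_comap] at h1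
  have h2 : (algebraMap (MvPolynomial (Fin k) ℂ) (MvPolynomial (Fin n) ℂ)) (X j - C (l j)) =
      P j - C (l j) := by
    show aeval P (X j - C (l j)) = P j - C (l j)
    rw [map_sub, aeval_X, aeval_C]
    rfl
  rw [h2, hz, mem_vanishingIdeal_singleton_iff, map_sub, aeval_C, sub_eq_zero] at h1
  show eval z (P j) = l j
  rw [← coe_aeval_eq_eval]
  exact h1

end Pool.Agent.Work.MP_49847a_an
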