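import Pool.Agent.Work.MP_49847a_an.PolH
import Pool.Agent.Work.MP_49847a_an.Cpt

/-!
# Module OnlyImm: the Quillen property forces immersivity

Proof.  Let `x ∈ XX P`, `dP(x) v = 0`, `v ≠ 0`.  `l = ∑_i conj(v_i) (X i - x i)`,
`l(x + t v) = t ‖v‖²` with `‖v‖² = ∑ |v_i|²`; `c > |l|²` on `XX P` (compact), `F` with values `|l|²`,
`R = C c - F`.  For real `t`, `a = x + t v`: put
`D(Φ) = Φ(a,a) - Φ(a,x) - Φ(x,a) + Φ(x,x)`.  By `pol_HS`, `D(pol R) = ∑_j |p_j(a) - p_j(x)|² +
D(r · pol H)` with `r(z,w) = ∑_j P_j(z) conj P_j(w) - 1`.  `r(x,x) = 0`; with `e_j = P_j(a) - P_j(x)`,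
`e = O(t²)` (`dP(x) v = 0`; `t ↦ P_j(x + t v)` is a polynomial in `t` whose linear coefficient is
`dd P x v j`), `ε = ∑ e_j conj P_j(x)`: `r(a,x) = ε`, `r(x,a) = conj ε`, `r(a,a) = ε + conj ε + ∑ |e_j|²`.
So `D(r · pol H) = ε (pol H a a - pol H a x) + conj ε (pol H a a - pol H x a) + (∑|e_j|²) pol H a a =
o(t²)` (`pol_continuous`).  Directly `D(pol R) = - t² ‖v‖⁴`.  Hence
`- ‖v‖⁴ ≥ o(1)` as `t → 0`: contradiction.
-/

namespace Pool.Agent.Work.MP_49847a_an

open MvPolynomial Topology

private theorem taylor {n : ℕ} (x v : Fin n → ℂ) (Q : MvPolynomial (Fin n) ℂ) :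
    ∃ q : ℂ → ℂ, Continuous q ∧ ∀ t : ℂ, eval (fun i => x i + t * v i) Q =
      eval x Q + t * (∑ i, eval x (pderiv i Q) * v i) + t ^ 2 * q t := by
  induction Q using MvPolynomial.induction_on with
  | C c => exact ⟨fun _ => 0, continuous_const, fun t => by simp⟩
  | add F G hF hG =>
    obtain ⟨q1, hq1, h1⟩ := hF
    obtain ⟨q2, hq2, h2⟩ := hG
    refine ⟨fun t => q1 t + q2 t, hq1.add hq2, fun t => ?_⟩
    simp only [map_add, h1, h2, add_mul, Finset.sum_add_distrib]
    ring
  | mul_X F j hF =>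
    obtain ⟨q, hq, h⟩ := hF
    have hd : ∑ i, eval x (pderiv i (F * X j)) * v i =
        (∑ i, eval x (pderiv i F) * v i) * x j + eval x F * v j := by
      have h1 : ∀ i, eval x (pderiv i (F * X j)) * v i =
          (eval x (pderiv i F) * v i) * x j + eval x F * (if i = j then v i else 0) := by
        intro i
        rw [Derivation.leibniz, smul_eq_mul, smul_eq_mul, map_add, map_mul, map_mul, eval_X,
          pderiv_X]
        by_cases hij : i = j
        · subst hij
          simp only [Pi.single_eq_same, map_one, if_true]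
          ring
        · rw [if_neg hij, Pi.single_apply, if_neg (Ne.symm hij)]
          simp only [map_zero]
          ring
      simp only [h1, Finset.sum_add_distrib, ← Finset.sum_mul, ← Finset.mul_sum,
        Finset.sum_ite_eq', Finset.mem_univ, if_true]
    refine ⟨fun t => q t * x j + (∑ i, eval x (pderiv i F) * v i) * v j + t * q t * v j,
      by fun_prop, fun t => ?_⟩
    rw [hd, map_mul, eval_X, h, map_mul, eval_X]
    ring

theorem only_imm {n k : ℕ} {P : Fin k → MvPolynomial (Fin n) ℂ} (hP : FiniteMap P)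
    (hQ : Quillen P) : ImmX P := by
  intro x hx v hv
  by_contra hv0
  -- the linear form
  set l : MvPolynomial (Fin n) ℂ := ∑ i, C ((starRingEnd ℂ) (v i)) * (X i - C (x i)) with hl
  set s : ℝ := ∑ i, ‖v i‖ ^ 2 with hs
  have hs0 : 0 < s := by
    have h1 : ∃ i, v i ≠ 0 := by
      by_contra hcon
      push Not at hcon
      exact hv0 (funext hcon)
    obtain ⟨i, hi⟩ := h1
    refine Finset.sum_pos' (fun _ _ => by positivity) ⟨i, Finset.mem_univ i, by positivity⟩
  set A : ℝ → Fin n → ℂ := fun t i => x i + (t : ℂ) * v i with hA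
  have hAc : Continuous A := by
    refine continuous_pi fun i => ?_
    fun_prop
  have hA0 : A 0 = x := by
    funext i
    simp [hA]
  have hlx : eval x l = 0 := by
    simp [hl]
  have hlA : ∀ t, eval (A t) l = ((t * s : ℝ) : ℂ) := by
    intro t
    simp only [hl, hA, hs, map_sum, map_mul, eval_C, map_sub, eval_X, add_sub_cancel_left]
    push_cast
    rw [Finset.mul_sum]
    refine Finset.sum_congr rfl fun i _ => ?_
    rw [← Complex.mul_conj']
    ring
  obtain ⟨F, hF⟩ := exists_norm_sq l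
  obtain ⟨B, hB⟩ := (isCompact_XX hP).exists_bound_of_continuousOn (ev_continuous F).continuousOn
  obtain ⟨m, p, H, hR⟩ := hQ (C (B + 1) - F) (by
    intro z hz
    rw [ev_sub, ev_C]
    have h1 := hB z hz
    have h2 := le_abs_self (ev F z)
    rw [Real.norm_eq_abs] at h1
    linarith)
  have hE : ∀ z w, ((B + 1 : ℝ) : ℂ) - eval z l * (starRingEnd ℂ) (eval w l) =
      ∑ j, eval z (p j) * (starRingEnd ℂ) (eval w (p j)) +
      (∑ j, eval z (P j) * (starRingEnd ℂ) (eval w (P j)) - 1) * pol H z w := by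
    intro z w
    rw [← pol_HS hR z w, pol_sub, pol_C, pol_sq hF]
  have hHc := pol_continuous H
  generalize pol H = h at hE hHc
  choose q hqc hq using fun j => taylor x v (P j)
  have hPA : ∀ (t : ℝ) j, eval (A t) (P j) = eval x (P j) + (t : ℂ) ^ 2 * q j t := by
    intro t j
    have h1 := hq j t
    have h2 : ∑ i, eval x (pderiv i (P j)) * v i = 0 := hv j
    rw [h2, mul_zero, add_zero] at h1
    exact h1
  have hPx : ∑ j, eval x (P j) * (starRingEnd ℂ) (eval x (P j)) = 1 := by
    have h1 : nrm P x = 1 := hx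
    rw [nrm] at h1
    have h2 := congrArg (fun r : ℝ => (r : ℂ)) h1
    push_cast at h2
    rw [← h2]
    exact Finset.sum_congr rfl fun j _ => Complex.mul_conj' _
  set κ : ℝ → ℂ := fun t => ∑ j, q j t * (starRingEnd ℂ) (eval x (P j)) with hκ
  set κ' : ℝ → ℂ := fun t => ∑ j, eval x (P j) * (starRingEnd ℂ) (q j t) with hκ'
  set μ : ℝ → ℂ := fun t => ∑ j, q j t * (starRingEnd ℂ) (q j t) with hμ
  have r1 : ∀ t, ∑ j, eval (A t) (P j) * (starRingEnd ℂ) (eval x (P j)) - 1 =
      (t : ℂ) ^ 2 * κ t := by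
    intro t
    rw [← hPx, ← Finset.sum_sub_distrib, hκ, Finset.mul_sum]
    refine Finset.sum_congr rfl fun j _ => ?_
    rw [hPA]
    ring
  have r2 : ∀ t, ∑ j, eval x (P j) * (starRingEnd ℂ) (eval (A t) (P j)) - 1 =
      (t : ℂ) ^ 2 * κ' t := by
    intro t
    rw [← hPx, ← Finset.sum_sub_distrib, hκ', Finset.mul_sum]
    refine Finset.sum_congr rfl fun j _ => ?_
    rw [hPA, map_add, map_mul, map_pow, Complex.conj_ofReal]
    ring
  have r3 : ∀ t, ∑ j, eval (A t) (P j) * (starRingEnd ℂ) (eval (A t) (P j)) - 1 =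
      (t : ℂ) ^ 2 * (κ t + κ' t + (t : ℂ) ^ 2 * μ t) := by
    intro t
    rw [← hPx, ← Finset.sum_sub_distrib, hκ, hκ', hμ, Finset.mul_sum, ← Finset.sum_add_distrib,
      ← Finset.sum_add_distrib, Finset.mul_sum]
    refine Finset.sum_congr rfl fun j _ => ?_
    rw [hPA, map_add, map_mul, map_pow, Complex.conj_ofReal]
    ring
  set ω : ℝ → ℂ := fun t => κ t * (h (A t) (A t) - h (A t) x) +
    κ' t * (h (A t) (A t) - h x (A t)) + (t : ℂ) ^ 2 * μ t * h (A t) (A t) with hω
  have hωc : Continuous ω := by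
    have c1 : Continuous κ := by
      refine continuous_finsetSum _ fun j _ => ?_
      exact ((hqc j).comp Complex.continuous_ofReal).mul continuous_const
    have c2 : Continuous κ' := by
      refine continuous_finsetSum _ fun j _ => ?_
      exact continuous_const.mul (Complex.continuous_conj.comp
        ((hqc j).comp Complex.continuous_ofReal))
    have c3 : Continuous μ := by
      refine continuous_finsetSum _ fun j _ => ?_
      exact ((hqc j).comp Complex.continuous_ofReal).mul (Complex.continuous_conj.comp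
        ((hqc j).comp Complex.continuous_ofReal))
    have c4 : Continuous fun t => h (A t) (A t) :=
      hHc.comp (hAc.prodMk hAc)
    have c5 : Continuous fun t => h (A t) x :=
      hHc.comp (hAc.prodMk continuous_const)
    have c6 : Continuous fun t => h x (A t) :=
      hHc.comp (continuous_const.prodMk hAc)
    have c7 : Continuous fun t : ℝ => (t : ℂ) := Complex.continuous_ofReal
    exact ((c1.mul (c4.sub c5)).add (c2.mul (c4.sub c6))).add (((c7.pow 2).mul c3).mul c4)
  have hω0 : ω 0 = 0 := by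
    simp only [hω, hA0]
    simp
  have hmain : ∀ t : ℝ, -(((t * s) ^ 2 : ℝ) : ℂ) =
      ((∑ j, ‖eval (A t) (p j) - eval x (p j)‖ ^ 2 : ℝ) : ℂ) + (t : ℂ) ^ 2 * ω t := by
    intro t
    have h1 := hE (A t) (A t)
    have h2 := hE (A t) x
    have h3 := hE x (A t)
    have h4 := hE x x
    rw [r3] at h1
    rw [r1] at h2
    rw [r2] at h3
    rw [hPx] at h4
    rw [hlA, Complex.conj_ofReal] at h1
    rw [hlx] at h2 h3 h4
    simp only [map_zero, mul_zero, zero_mul, sub_zero, sub_self, add_zero] at h2 h3 h4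
    have h5 : ((∑ j, ‖eval (A t) (p j) - eval x (p j)‖ ^ 2 : ℝ) : ℂ) =
        ∑ j, eval (A t) (p j) * (starRingEnd ℂ) (eval (A t) (p j)) -
        ∑ j, eval (A t) (p j) * (starRingEnd ℂ) (eval x (p j)) -
        ∑ j, eval x (p j) * (starRingEnd ℂ) (eval (A t) (p j)) +
        ∑ j, eval x (p j) * (starRingEnd ℂ) (eval x (p j)) := by
      rw [← Finset.sum_sub_distrib, ← Finset.sum_sub_distrib, ← Finset.sum_add_distrib]
      push_cast
      refine Finset.sum_congr rfl fun j _ => ?_
      rw [← Complex.mul_conj', map_sub]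
      ring
    rw [h5, hω]
    push_cast at h1 h2 h3 h4 ⊢
    linear_combination h1 - h2 - h3 + h4
  have hre : ∀ t : ℝ, t ≠ 0 → (ω t).re ≤ -s ^ 2 := by
    intro t ht
    have h1 := congrArg Complex.re (hmain t)
    have h2 : ((t : ℂ) ^ 2 * ω t).re = t ^ 2 * (ω t).re := by
      rw [← Complex.ofReal_pow, Complex.re_ofReal_mul]
    rw [Complex.add_re, h2, ← Complex.ofReal_neg, Complex.ofReal_re, Complex.ofReal_re] at h1
    have h3 : 0 ≤ ∑ j, ‖eval (A t) (p j) - eval x (p j)‖ ^ 2 :=
      Finset.sum_nonneg fun _ _ => by positivity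
    have h4 : 0 < t ^ 2 := by positivity
    have h5 : t ^ 2 * ((ω t).re + s ^ 2) ≤ 0 := by nlinarith
    have h6 : (ω t).re + s ^ 2 ≤ 0 := by
      by_contra hc
      push Not at hc
      have := mul_pos h4 hc
      linarith
    linarith
  have hlim : Filter.Tendsto (fun t => (ω t).re) (𝓝[≠] 0) (𝓝 0) := by
    have h1 : Filter.Tendsto (fun t => (ω t).re) (𝓝 0) (𝓝 (ω 0).re) :=
      (Complex.continuous_re.comp hωc).tendsto 0
    rw [hω0, Complex.zero_re] at h1
    exact h1.mono_left nhdsWithin_le_nhds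
  have hfin : (0 : ℝ) ≤ -s ^ 2 := by
    refine le_of_tendsto hlim ?_
    filter_upwards [self_mem_nhdsWithin] with t ht
    exact hre t ht
  nlinarith

end Pool.Agent.Work.MP_49847a_an
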