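import Pool.Agent.Work.MP_49847a_an.PolH
import Pool.Agent.Work.MP_49847a_an.Cpt

/-!
# Module OnlyInj: the Quillen property forces injectivity

Proof.  Let `a ≠ b` in `XX P` with `P(a) = P(b)`, say `a i ≠ b i`; let `l` be the affine polynomial
`(2 X i - a i - b i)/(a i - b i)`: `l(a) = 1`, `l(b) = -1`.  By compactness `|l|² < c` on `XX P`; let
`F` have values `|l|²` and `R = C c - F > 0` on `XX P`.  By `hQ` and `pol_HS`, `pol R` at the pairs
`(a,a), (a,b), (b,a), (b,b)` equals `∑_j p_j conj p_j` there, because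
`∑_j P_j(a) conj(P_j(b)) = ∑ |P_j(a)|² = 1`.  So
`pol R a a - pol R a b - pol R b a + pol R b b = ∑_j |p_j(a) - p_j(b)|² ≥ 0`; but `pol R z w = c - l(z)
conj l(w)` (`pol_sq`) makes the left side `(c-1) - (c+1) - (c+1) + (c-1) = -4`.
-/

namespace Pool.Agent.Work.MP_49847a_an

open MvPolynomial

theorem sum_PP_one {n k : ℕ} {P : Fin k → MvPolynomial (Fin n) ℂ} {a : Fin n → ℂ}
    (ha : a ∈ XX P) : ∑ j, eval a (P j) * (starRingEnd ℂ) (eval a (P j)) = 1 := by
  have h1 : nrm P a = 1 := ha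
  have h2 : ∑ j, eval a (P j) * (starRingEnd ℂ) (eval a (P j)) = ((nrm P a : ℝ) : ℂ) := by
    unfold nrm
    push_cast
    refine Finset.sum_congr rfl fun j _ => ?_
    rw [Complex.mul_conj, Complex.normSq_eq_norm_sq]
    push_cast
    rfl
  rw [h2, h1]
  simp

theorem only_inj {n k : ℕ} {P : Fin k → MvPolynomial (Fin n) ℂ} (hP : FiniteMap P)
    (hQ : Quillen P) : InjX P := by
  intro a ha b hb hab
  by_contra hne
  obtain ⟨i, hi⟩ : ∃ i, a i ≠ b i := by
    by_contra hcon
    push Not at hcon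
    exact hne (funext hcon)
  have hd : a i - b i ≠ 0 := sub_ne_zero.mpr hi
  set l : MvPolynomial (Fin n) ℂ := C (2 / (a i - b i)) * X i - C ((a i + b i) / (a i - b i)) with hl
  have hle : ∀ z, eval z l = 2 / (a i - b i) * z i - (a i + b i) / (a i - b i) := by
    intro z
    simp [hl]
  have hla : eval a l = 1 := by
    rw [hle]
    field_simp
    ring
  have hlb : eval b l = -1 := by
    rw [hle]
    field_simp
    ring
  obtain ⟨F, hF⟩ := exists_norm_sq l
  have hcont : Continuous (fun z => ev F z) := ev_continuous F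
  obtain ⟨c, hc⟩ := (isCompact_XX hP).exists_bound_of_continuousOn hcont.continuousOn
  set R : MvPolynomial (Fin n ⊕ Fin n) ℝ := C (c + 1) - F with hR
  have hRpos : ∀ z ∈ XX P, 0 < ev R z := by
    intro z hz
    rw [hR, ev_sub, ev_C]
    have := hc z hz
    rw [Real.norm_eq_abs] at this
    have := le_abs_self (ev F z)
    linarith
  obtain ⟨m, p, H, hH⟩ := hQ R hRpos
  have hpolR : ∀ z w, pol R z w = ((c + 1 : ℝ) : ℂ) - eval z l * (starRingEnd ℂ) (eval w l) := by
    intro z w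
    rw [hR, pol_sub, pol_C, pol_sq hF]
  have hpolR2 : ∀ z w, (∀ j, eval z (P j) = eval a (P j)) → (∀ j, eval w (P j) = eval a (P j)) →
      pol R z w = ∑ j, eval z (p j) * (starRingEnd ℂ) (eval w (p j)) := by
    intro z w hz hw
    rw [pol_HS hH]
    have : ∑ j, eval z (P j) * (starRingEnd ℂ) (eval w (P j)) = 1 := by
      rw [← sum_PP_one ha]
      refine Finset.sum_congr rfl fun j _ => ?_
      rw [hz j, hw j]
    rw [this]
    ring
  have hb' : ∀ j, eval b (P j) = eval a (P j) := fun j => (hab j).symm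
  have ha' : ∀ j, eval a (P j) = eval a (P j) := fun j => rfl
  have h1 := hpolR2 a a ha' ha'
  have h2 := hpolR2 a b ha' hb'
  have h3 := hpolR2 b a hb' ha'
  have h4 := hpolR2 b b hb' hb'
  rw [hpolR, hla] at h1
  rw [hpolR, hla, hlb] at h2
  rw [hpolR, hla, hlb] at h3
  rw [hpolR, hlb] at h4
  have h5 : ∑ j, ((‖eval a (p j) - eval b (p j)‖ ^ 2 : ℝ) : ℂ) = -4 := by
    have e : ∀ j, ((‖eval a (p j) - eval b (p j)‖ ^ 2 : ℝ) : ℂ) =
        eval a (p j) * (starRingEnd ℂ) (eval a (p j)) - eval a (p j) * (starRingEnd ℂ) (eval b (p j))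
        - eval b (p j) * (starRingEnd ℂ) (eval a (p j))
        + eval b (p j) * (starRingEnd ℂ) (eval b (p j)) := by
      intro j
      rw [← Complex.normSq_eq_norm_sq, ← Complex.mul_conj, map_sub]
      ring
    rw [Finset.sum_congr rfl fun j _ => e j, Finset.sum_add_distrib, Finset.sum_sub_distrib,
      Finset.sum_sub_distrib, ← h1, ← h2, ← h3, ← h4]
    simp only [map_one, map_neg]
    ring
  have h6 : ∑ j, ‖eval a (p j) - eval b (p j)‖ ^ 2 = -4 := by
    have : ((∑ j, ‖eval a (p j) - eval b (p j)‖ ^ 2 : ℝ) : ℂ) = ((-4 : ℝ) : ℂ) := by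
      rw [Complex.ofReal_sum, h5]
      simp
    exact_mod_cast this
  have h7 : 0 ≤ ∑ j, ‖eval a (p j) - eval b (p j)‖ ^ 2 :=
    Finset.sum_nonneg fun j _ => sq_nonneg _
  linarith

end Pool.Agent.Work.MP_49847a_an
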