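import Pool.Agent.Work.MP_49847a_an.Boot
import Pool.Agent.Work.MP_49847a_an.OnlyInj
import Pool.Agent.Work.MP_49847a_an.OnlyImm

/-!
# Assembly
-/

namespace Pool.Agent.Work.MP_49847a_an

open MvPolynomial

variable {n k : ℕ} {P : Fin k → MvPolynomial (Fin n) ℂ}

theorem strPsc_iff : StrPsc P ↔ ImmX P := by
  constructor
  · intro h a ha v hv
    by_contra hne
    have h1 := h a ha v hne (Finset.sum_eq_zero fun j _ => by rw [hv j, zero_mul])
    have h2 : ∑ j, ‖dd P a v j‖ ^ 2 = 0 := Finset.sum_eq_zero fun j _ => by rw [hv j]; simp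
    rw [h2] at h1
    exact lt_irrefl _ h1
  · intro h a ha v hv _
    rcases (Finset.sum_nonneg fun j _ => sq_nonneg ‖dd P a v j‖ :
      0 ≤ ∑ j, ‖dd P a v j‖ ^ 2).eq_or_lt with h0 | h0
    · exfalso
      apply hv
      apply h a ha v
      intro j
      have h1 := (Finset.sum_eq_zero_iff_of_nonneg fun j _ => sq_nonneg ‖dd P a v j‖).mp h0.symm j
        (Finset.mem_univ j)
      simpa using h1
    · exact h0

theorem quillen_iff (hP : FiniteMap P) : Quillen P ↔ StrPsc P ∧ InjX P := by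
  constructor
  · intro hQ
    exact ⟨strPsc_iff.mpr (only_imm hP hQ), only_inj hP hQ⟩
  · rintro ⟨h1, h2⟩ R hR
    exact pos_TT (boot hP h2 (strPsc_iff.mp h1)) hR

theorem main (hP : FiniteMap P) : (Quillen P ↔ StrPsc P ∧ InjX P) ∧
    (Generates P → (SumsOnX P ↔ StrPsc P ∧ InjX P)) := by
  refine ⟨quillen_iff hP, fun hG => ?_⟩
  rw [← quillen_iff hP]
  constructor
  · intro hS R hR
    obtain ⟨m, p, hp⟩ := hS R hR
    obtain ⟨F, hF⟩ := exists_nrm p
    obtain ⟨H, hH⟩ := hG (R - F) (fun z hz => by rw [ev_sub, hF, hp z hz, sub_self])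
    refine ⟨m, p, H, fun z => ?_⟩
    have := hH z
    rw [ev_sub, hF] at this
    linarith
  · intro hQ R hR
    obtain ⟨m, p, H, h⟩ := hQ R hR
    refine ⟨m, p, fun z hz => ?_⟩
    rw [h z, show nrm P z = 1 from hz]
    ring

end Pool.Agent.Work.MP_49847a_an
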