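import Pool.Agent.Work.MP_49847a_an.Ev

/-!
# Module Pol: polarisation

Proofs.  `pol F z w` is `eval` at a complex point, a ring homomorphism in `F`.
(pol_self) at `w = z` the point is the real point `(re z, im z)`.
(pol_sum) For a holomorphic polynomial `a` let `a⁺ ∈ ℂ[x,y]` be `a(x + i y)` and `a⁻` be the
polynomial with conjugate coefficients at `x - i y`; at `x = (z + conj w)/2`, `y = (z - conj w)/(2i)`:
`a⁺ = a(z)`, `a⁻ = conj (a(w))`.  The polynomials `map ofReal F` and `∑ a_j⁺ b_j⁻` in
`ℂ[x,y]` agree at all real points by `h`, hence are equal (a complex polynomial vanishing on `ℝ^N` is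
zero: `MvPolynomial.funext_set` with the infinite set of real numbers).
-/

namespace Pool.Agent.Work.MP_49847a_an

open MvPolynomial

variable {n : ℕ}

theorem pol_add (F G : MvPolynomial (Fin n ⊕ Fin n) ℝ) (z w : Fin n → ℂ) :
    pol (F + G) z w = pol F z w + pol G z w := by
  simp [pol]

theorem pol_sub (F G : MvPolynomial (Fin n ⊕ Fin n) ℝ) (z w : Fin n → ℂ) :
    pol (F - G) z w = pol F z w - pol G z w := by
  simp [pol]

theorem pol_mul (F G : MvPolynomial (Fin n ⊕ Fin n) ℝ) (z w : Fin n → ℂ) :
    pol (F * G) z w = pol F z w * pol G z w := by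
  simp [pol]

theorem pol_C (c : ℝ) (z w : Fin n → ℂ) :
    pol (C c : MvPolynomial (Fin n ⊕ Fin n) ℝ) z w = (c : ℂ) := by
  simp [pol]

theorem eval_map_ofReal {σ : Type*} (F : MvPolynomial σ ℝ) (x : σ → ℝ) :
    eval (fun i => ((x i : ℝ) : ℂ)) (map (algebraMap ℝ ℂ) F) = ((eval x F : ℝ) : ℂ) := by
  rw [eval_map]
  induction F using MvPolynomial.induction_on with
  | C a => simp
  | add p q hp hq => simp [eval₂_add, hp, hq]
  | mul_X p i hp => simp [eval₂_mul, hp]

theorem eval_map_conj {σ : Type*} (a : MvPolynomial σ ℂ) (v : σ → ℂ) :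
    eval (fun i => (starRingEnd ℂ) (v i)) (map (starRingEnd ℂ) a) =
      (starRingEnd ℂ) (eval v a) := by
  rw [eval_map]
  induction a using MvPolynomial.induction_on with
  | C a => simp
  | add p q hp hq => simp [eval₂_add, hp, hq]
  | mul_X p i hp => simp [eval₂_mul, hp]

theorem pol_self (F : MvPolynomial (Fin n ⊕ Fin n) ℝ) (z : Fin n → ℂ) :
    pol F z z = ((ev F z : ℝ) : ℂ) := by
  unfold pol ev
  rw [← eval_map_ofReal]
  congr 1
  congr 1
  funext i
  rcases i with i | i
  · simp only [Sum.elim_inl]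
    rw [Complex.add_conj]
    push_cast
    ring
  · simp only [Sum.elim_inr]
    rw [Complex.sub_conj]
    field_simp
    push_cast
    ring

theorem pol_continuous (F : MvPolynomial (Fin n ⊕ Fin n) ℝ) :
    Continuous (fun q : (Fin n → ℂ) × (Fin n → ℂ) => pol F q.1 q.2) := by
  unfold pol
  have h1 : Continuous (fun q : (Fin n → ℂ) × (Fin n → ℂ) =>
      (Sum.elim (fun i => (q.1 i + (starRingEnd ℂ) (q.2 i)) / 2)
    (fun i => (q.1 i - (starRingEnd ℂ) (q.2 i)) / (2 * Complex.I)) : Fin n ⊕ Fin n → ℂ)) := by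
    refine continuous_pi fun i => ?_
    rcases i with i | i
    · simp only [Sum.elim_inl]
      have := Complex.continuous_conj
      fun_prop
    · simp only [Sum.elim_inr]
      have := Complex.continuous_conj
      fun_prop
  exact (MvPolynomial.continuous_eval _).comp h1

/-- `a(x + i y)` as a polynomial in `x`, `y` -/
noncomputable def plusP (a : MvPolynomial (Fin n) ℂ) : MvPolynomial (Fin n ⊕ Fin n) ℂ :=
  aeval (fun i => X (Sum.inl i) + C Complex.I * X (Sum.inr i)) a

/-- `conj(a)(x - i y)` as a polynomial in `x`, `y` -/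
noncomputable def minusP (a : MvPolynomial (Fin n) ℂ) : MvPolynomial (Fin n ⊕ Fin n) ℂ :=
  aeval (fun i => X (Sum.inl i) - C Complex.I * X (Sum.inr i)) (map (starRingEnd ℂ) a)

theorem eval_plusP (a : MvPolynomial (Fin n) ℂ) (y : Fin n ⊕ Fin n → ℂ) :
    eval y (plusP a) = eval (fun i => y (Sum.inl i) + Complex.I * y (Sum.inr i)) a := by
  unfold plusP
  induction a using MvPolynomial.induction_on with
  | C a => simp
  | add p q hp hq => simp only [map_add, hp, hq]
  | mul_X p i hp => rw [map_mul, map_mul, hp, aeval_X, map_mul]; simp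

theorem eval_minusP (a : MvPolynomial (Fin n) ℂ) (y : Fin n ⊕ Fin n → ℂ) :
    eval y (minusP a) =
      eval (fun i => y (Sum.inl i) - Complex.I * y (Sum.inr i)) (map (starRingEnd ℂ) a) := by
  unfold minusP
  generalize map (starRingEnd ℂ) a = a
  induction a using MvPolynomial.induction_on with
  | C a => simp
  | add p q hp hq => simp only [map_add, hp, hq]
  | mul_X p i hp => rw [map_mul, map_mul, hp, aeval_X, map_mul]; simp

theorem pol_sum {m : ℕ} (F : MvPolynomial (Fin n ⊕ Fin n) ℝ)
    (a b : Fin m → MvPolynomial (Fin n) ℂ)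
    (h : ∀ z, ((ev F z : ℝ) : ℂ) = ∑ j, eval z (a j) * (starRingEnd ℂ) (eval z (b j)))
    (z w : Fin n → ℂ) :
    pol F z w = ∑ j, eval z (a j) * (starRingEnd ℂ) (eval w (b j)) := by
  have key : map (algebraMap ℝ ℂ) F = ∑ j, plusP (a j) * minusP (b j) := by
    refine funext_set (fun _ => Set.range ((↑) : ℝ → ℂ))
      (fun _ => Set.infinite_range_of_injective Complex.ofReal_injective) fun x hx => ?_
    have hx' : ∀ i, ∃ t : ℝ, (t : ℂ) = x i := fun i => hx i (Set.mem_univ i)
    choose t ht using hx'
    have hxt : x = fun i => ((t i : ℝ) : ℂ) := by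
      funext i
      exact (ht i).symm
    rw [hxt, eval_map_ofReal]
    set u : Fin n → ℂ := fun i => (t (Sum.inl i) : ℂ) + Complex.I * (t (Sum.inr i) : ℂ) with hu
    have h1 : eval t F = ev F u := by
      unfold ev
      congr 2
      funext i
      rcases i with i | i <;> simp [hu]
    rw [h1, h u, map_sum]
    refine Finset.sum_congr rfl fun j _ => ?_
    rw [map_mul, eval_plusP, eval_minusP, ← eval_map_conj]
    congr 3
    funext i
    simp only [hu, map_add, map_mul, Complex.conj_I, Complex.conj_ofReal]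
    ring
  unfold pol
  rw [key, map_sum]
  refine Finset.sum_congr rfl fun j _ => ?_
  rw [map_mul, eval_plusP, eval_minusP, ← eval_map_conj]
  have hI : (2 * Complex.I) ≠ 0 := mul_ne_zero two_ne_zero Complex.I_ne_zero
  congr 3
  · funext i
    simp only [Sum.elim_inl, Sum.elim_inr]
    field_simp
    ring
  · funext i
    simp only [Sum.elim_inl, Sum.elim_inr]
    field_simp
    ring

end Pool.Agent.Work.MP_49847a_an
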