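import Pool.Agent.Work.MP_49847a_an.KD
import Pool.Agent.Work.MP_49847a_an.Arch
import Pool.Agent.Work.MP_49847a_an.Lie

/-!
# Module Pos: the two Positivstellensaetze

(pos_TT) Apply `kd` to `S = {F | HS P (ev F)}` in `MvPolynomial (Fin n ⊕ Fin n) ℝ`.  An algebra
homomorphism `φ` is `F ↦ ev F z` with `z_i = φ(X (inl i)) + φ(X (inr i)) I`
(`MvPolynomial.algHom_ext`).  Nonnegative on `S`: applied to `± ρ`, `ev ρ = nrm P - 1`
(`exists_nrm`, `HS_rel`), it gives `nrm P z = 1`.
(pos_TL) Apply `kd` to `S = {G | HS P (fun z => ev G (PP P z))}` in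
`MvPolynomial (Fin k ⊕ Fin k) ℝ`.  An algebra homomorphism `φ` is `G ↦ ev G l`.  If it is nonnegative
on `S`: (a) `G = ± (∑ |λ_j|² - 1)` gives `∑ ‖l j‖² = 1`; (b) if `aeval P q = 0` then `- |q|²` is in
`S` (its composition with `P` is `0`, `eval_PP`), so `- ‖eval l q‖² ≥ 0` and `eval l q = 0`; by
`lie_over`, `l = PP P z₀`, and `z₀ ∈ XX P` by (a).  So `φ G = ev G (PP P z₀) > 0`.
-/

namespace Pool.Agent.Work.MP_49847a_an

open MvPolynomial

variable {n k : ℕ} {P : Fin k → MvPolynomial (Fin n) ℂ}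

private theorem hom_eq_ev {n : ℕ} (φ : MvPolynomial (Fin n ⊕ Fin n) ℝ →ₐ[ℝ] ℝ)
    (F : MvPolynomial (Fin n ⊕ Fin n) ℝ) :
    φ F = ev F (fun i => (⟨φ (X (Sum.inl i)), φ (X (Sum.inr i))⟩ : ℂ)) := by
  have h : φ = aeval (Sum.elim (fun i => φ (X (Sum.inl i))) (fun i => φ (X (Sum.inr i)))) := by
    apply MvPolynomial.algHom_ext
    rintro (i | i) <;> simp
  conv_lhs => rw [h]
  rw [ev, aeval_eq_eval]

theorem pos_TT (h : ∀ f, Bd P f) {R : MvPolynomial (Fin n ⊕ Fin n) ℝ}
    (hR : ∀ z ∈ XX P, 0 < ev R z) : HS P (ev R) := by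
  have key : R ∈ {F : MvPolynomial (Fin n ⊕ Fin n) ℝ | HS P (ev F)} := by
    refine kd _ ?_ ?_ ?_ ?_ ?_
    · intro a ha b hb
      exact HS_congr (HS_add ha hb) fun z => ev_add a b z
    · intro a ha b hb
      exact HS_congr (HS_mul ha hb) fun z => ev_mul a b z
    · intro c hc
      exact HS_congr (HS_const hc) fun z => ev_C c z
    · intro a
      obtain ⟨N, hN⟩ := arch_TT h a
      refine ⟨N, HS_congr hN fun z => ?_⟩
      rw [ev_sub]
      congr 1
      exact ev_C N z
    · intro φ hφ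
      set z : Fin n → ℂ := fun i => ⟨φ (X (Sum.inl i)), φ (X (Sum.inr i))⟩ with hz
      have hev : ∀ F, φ F = ev F z := hom_eq_ev φ
      obtain ⟨ρ, hρ⟩ := exists_nrm P
      have h1 : 0 ≤ φ (ρ - C 1) := by
        refine hφ _ (HS_congr (HS_rel (C 1)) fun z => ?_)
        simp only [ev_sub, ev_C, hρ]
        ring
      have h2 : 0 ≤ φ (C 1 - ρ) := by
        refine hφ _ (HS_congr (HS_rel (C (-1))) fun z => ?_)
        simp only [ev_sub, ev_C, hρ]
        ring
      rw [hev, ev_sub, ev_C, hρ] at h1 h2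
      have h3 : z ∈ XX P := by
        show nrm P z = 1
        linarith
      rw [hev]
      exact hR z h3
  exact key

theorem pos_TL (hP : FiniteMap P) {G : MvPolynomial (Fin k ⊕ Fin k) ℝ}
    (hG : ∀ z ∈ XX P, 0 < ev G (PP P z)) : HS P (fun z => ev G (PP P z)) := by
  have key : G ∈ {G : MvPolynomial (Fin k ⊕ Fin k) ℝ | HS P (fun z => ev G (PP P z))} := by
    refine kd _ ?_ ?_ ?_ ?_ ?_
    · intro a ha b hb
      exact HS_congr (HS_add ha hb) fun z => ev_add a b _
    · intro a ha b hb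
      exact HS_congr (HS_mul ha hb) fun z => ev_mul a b _
    · intro c hc
      exact HS_congr (HS_const hc) fun z => ev_C c _
    · intro a
      obtain ⟨N, hN⟩ := arch_TL (P := P) a
      refine ⟨N, HS_congr hN fun z => ?_⟩
      rw [ev_sub]
      congr 1
      exact ev_C N _
    · intro φ hφ
      set l : Fin k → ℂ := fun i => ⟨φ (X (Sum.inl i)), φ (X (Sum.inr i))⟩ with hl
      have hev : ∀ F, φ F = ev F l := hom_eq_ev φ
      obtain ⟨ρ, hρ⟩ := exists_nrm (fun j : Fin k => (X j : MvPolynomial (Fin k) ℂ))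
      have hρP : ∀ z, ev ρ (PP P z) = nrm P z := by
        intro z
        rw [hρ, nrm, nrm]
        simp only [eval_X, PP]
      have h1 : 0 ≤ φ (ρ - C 1) := by
        refine hφ _ (HS_congr (HS_rel (C 1)) fun z => ?_)
        simp only [ev_sub, ev_C, hρP]
        ring
      have h2 : 0 ≤ φ (C 1 - ρ) := by
        refine hφ _ (HS_congr (HS_rel (C (-1))) fun z => ?_)
        simp only [ev_sub, ev_C, hρP]
        ring
      rw [hev, ev_sub, ev_C, hρ] at h1 h2
      have h3 : nrm (fun j : Fin k => (X j : MvPolynomial (Fin k) ℂ)) l = 1 := by linarith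
      obtain ⟨z₀, hz₀⟩ := lie_over hP l (by
        intro q hq
        obtain ⟨F, hF⟩ := exists_norm_sq q
        have h4 : 0 ≤ φ (C 0 - F) := by
          refine hφ _ (HS_congr (HS_const (le_refl (0 : ℝ))) fun z => ?_)
          rw [ev_sub, ev_C, hF, eval_PP, hq]
          simp
        rw [hev, ev_sub, ev_C, hF] at h4
        have h5 : ‖eval l q‖ ^ 2 = 0 := le_antisymm (by linarith) (by positivity)
        simpa using h5)
      have h6 : z₀ ∈ XX P := by
        show nrm P z₀ = 1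
        rw [← h3, ← hρ, ← hz₀, hρP]
      rw [hev, ← hz₀]
      exact hG z₀ h6
  exact key

end Pool.Agent.Work.MP_49847a_an
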